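import Mathlib

/-! Part P of MP_f76209_pr: Gaussian random walk estimates. -/

open MeasureTheory ProbabilityTheory Set
open scoped NNReal ENNReal
set_option autoImplicit false

namespace Pool.Agent.BG.H85

/-- Anti-concentration: an interval of length one has Gaussian mass at most `1/(2√k)`. -/
theorem gauss_upper (a : ℝ) {k : ℕ} (hk : 1 ≤ k) (c : ℝ) :
    (gaussianReal a (k : ℝ≥0)).real {y : ℝ | |c + y| ≤ 1 / 2} ≤ 1 / (2 * Real.sqrt k) := by
  have hv : (k : ℝ≥0) ≠ 0 := by
    have : (0 : ℝ≥0) < k := by exact_mod_cast hk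
    exact this.ne'
  have hset : {y : ℝ | |c + y| ≤ 1 / 2} = Icc (-c - 1 / 2) (-c + 1 / 2) := by
    ext y
    simp only [mem_ofPred_eq, abs_le, mem_Icc]
    constructor
    · rintro ⟨h1, h2⟩; constructor <;> linarith
    · rintro ⟨h1, h2⟩; constructor <;> linarith
  rw [hset, measureReal_def, gaussianReal_apply_eq_integral _ hv, ENNReal.toReal_ofReal
    (integral_nonneg (fun x => gaussianPDFReal_nonneg _ _ _))]
  have hkR : (0 : ℝ) < k := by exact_mod_cast hk
  have hb : ∀ x, gaussianPDFReal a (k : ℝ≥0) x ≤ 1 / (2 * Real.sqrt k) := by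
    intro x
    rw [gaussianPDFReal]
    have h1 : Real.exp (-(x - a) ^ 2 / (2 * ((k : ℝ≥0) : ℝ))) ≤ 1 := by
      rw [Real.exp_le_one_iff]
      apply div_nonpos_of_nonpos_of_nonneg
      · nlinarith [sq_nonneg (x - a)]
      · positivity
    have h2 : 2 * Real.sqrt k ≤ Real.sqrt (2 * Real.pi * ((k : ℝ≥0) : ℝ)) := by
      have : (2 : ℝ) * Real.sqrt k = Real.sqrt (4 * k) := by
        rw [Real.sqrt_mul (by norm_num), show (4 : ℝ) = 2 ^ 2 by norm_num, Real.sqrt_sq (by norm_num)]
      rw [this]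
      apply Real.sqrt_le_sqrt
      have := Real.pi_gt_three
      push_cast
      nlinarith
    have h3 : (0 : ℝ) < 2 * Real.sqrt k := by positivity
    calc (Real.sqrt (2 * Real.pi * ((k : ℝ≥0) : ℝ)))⁻¹ * Real.exp (-(x - a) ^ 2 / (2 * ((k : ℝ≥0) : ℝ)))
        ≤ (2 * Real.sqrt k)⁻¹ * 1 := by
          apply mul_le_mul _ h1 (Real.exp_pos _).le (by positivity)
          exact inv_anti₀ h3 h2
      _ = 1 / (2 * Real.sqrt k) := by rw [mul_one, one_div]
  calc ∫ x in Icc (-c - 1 / 2) (-c + 1 / 2), gaussianPDFReal a (k : ℝ≥0) x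
      ≤ ∫ x in Icc (-c - 1 / 2) (-c + 1 / 2), (1 / (2 * Real.sqrt k) : ℝ) := by
        apply setIntegral_mono
        · exact (integrable_gaussianPDFReal _ _).integrableOn
        · exact integrableOn_const (by simp) enorm_ne_top
        · exact hb
    _ = 1 / (2 * Real.sqrt k) := by
        rw [setIntegral_const, measureReal_def, Real.volume_Icc]
        rw [show (-c + 1 / 2 - (-c - 1 / 2) : ℝ) = 1 by ring]
        simp

/-- Lower bound of the Gaussian mass of `[-1/2,1/2]` when the variance is comparable to `M²`. -/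
theorem gauss_lower {M k : ℕ} (hM : 1 ≤ M) (hk1 : M ^ 2 ≤ 2 * k) (hk2 : k ≤ M ^ 2) (c : ℝ)
    (hc : |c| ≤ M) :
    Real.exp (-3) / (3 * M) ≤ (gaussianReal 0 (k : ℝ≥0)).real {y : ℝ | |c + y| ≤ 1 / 2} := by
  have hMR : (1 : ℝ) ≤ M := by exact_mod_cast hM
  have hk1R : (M : ℝ) ^ 2 ≤ 2 * k := by exact_mod_cast hk1
  have hk2R : (k : ℝ) ≤ (M : ℝ) ^ 2 := by exact_mod_cast hk2
  have hkR : (0 : ℝ) < k := by nlinarith
  have hv : (k : ℝ≥0) ≠ 0 := by
    have : (0 : ℝ≥0) < k := by exact_mod_cast hkR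
    exact this.ne'
  have hset : {y : ℝ | |c + y| ≤ 1 / 2} = Icc (-c - 1 / 2) (-c + 1 / 2) := by
    ext y
    simp only [mem_ofPred_eq, abs_le, mem_Icc]
    constructor
    · rintro ⟨h1, h2⟩; constructor <;> linarith
    · rintro ⟨h1, h2⟩; constructor <;> linarith
  rw [hset, measureReal_def, gaussianReal_apply_eq_integral _ hv, ENNReal.toReal_ofReal
    (integral_nonneg (fun x => gaussianPDFReal_nonneg _ _ _))]
  have hb : ∀ x ∈ Icc (-c - 1 / 2) (-c + 1 / 2),
      Real.exp (-3) / (3 * M) ≤ gaussianPDFReal 0 (k : ℝ≥0) x := by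
    intro x hx
    rw [gaussianPDFReal]
    have hxabs : |x| ≤ M + 1 / 2 := by
      rw [abs_le] at hc ⊢
      obtain ⟨h1, h2⟩ := hx
      constructor <;> linarith
    have hx2 : x ^ 2 ≤ (M + 1 / 2 : ℝ) ^ 2 := by
      rw [← sq_abs x]
      exact pow_le_pow_left₀ (abs_nonneg _) hxabs 2
    have h1 : Real.exp (-3) ≤ Real.exp (-(x - 0) ^ 2 / (2 * ((k : ℝ≥0) : ℝ))) := by
      apply Real.exp_le_exp.mpr
      push_cast
      rw [sub_zero, le_div_iff₀ (by positivity)]
      nlinarith
    have h2 : Real.sqrt (2 * Real.pi * ((k : ℝ≥0) : ℝ)) ≤ 3 * M := by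
      apply Real.sqrt_le_iff.mpr
      constructor
      · positivity
      · have := Real.pi_lt_d2
        push_cast
        nlinarith
    have h4 : 0 < Real.sqrt (2 * Real.pi * ((k : ℝ≥0) : ℝ)) := by
      apply Real.sqrt_pos.mpr
      have := Real.pi_pos
      push_cast
      positivity
    rw [div_eq_inv_mul]
    apply mul_le_mul _ h1 (Real.exp_pos _).le (by positivity)
    exact inv_anti₀ h4 h2
  calc Real.exp (-3) / (3 * M)
      = ∫ x in Icc (-c - 1 / 2) (-c + 1 / 2), (Real.exp (-3) / (3 * M) : ℝ) := by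
        rw [setIntegral_const, measureReal_def, Real.volume_Icc]
        rw [show (-c + 1 / 2 - (-c - 1 / 2) : ℝ) = 1 by ring]
        simp
    _ ≤ ∫ x in Icc (-c - 1 / 2) (-c + 1 / 2), gaussianPDFReal 0 (k : ℝ≥0) x := by
        apply setIntegral_mono_on
        · exact integrableOn_const (by simp) enorm_ne_top
        · exact (integrable_gaussianPDFReal _ _).integrableOn
        · exact measurableSet_Icc
        · exact hb

/-- Sums of i.i.d. standard Gaussian variables over a finite set. -/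
theorem law_sum {Ω : Type*} [MeasurableSpace Ω] {P : Measure Ω} [IsProbabilityMeasure P]
    {ι : Type*} (Y : ι → Ω → ℝ) (hY : ∀ i, Measurable (Y i)) (hind : iIndepFun Y P)
    (hlaw : ∀ i, P.map (Y i) = gaussianReal 0 1) (s : Finset ι) :
    P.map (fun ω => ∑ i ∈ s, Y i ω) = gaussianReal 0 (s.card : ℝ≥0) := by
  classical
  induction s using Finset.induction_on with
  | empty => simp [gaussianReal_zero_var]
  | insert a s ha ih =>
    have h1 : IndepFun (∑ i ∈ s, Y i) (Y a) P :=
      hind.indepFun_finsetSum_of_notMem hY ha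
    have h2 := gaussianReal_add_gaussianReal_of_indepFun (m₁ := 0) (v₁ := (s.card : ℝ≥0))
      (m₂ := 0) (v₂ := 1) h1 (by
        have : (∑ i ∈ s, Y i) = fun ω => ∑ i ∈ s, Y i ω := by
          ext ω; simp
        rw [this]; exact ih) (hlaw a)
    have h3 : (fun ω => ∑ i ∈ insert a s, Y i ω) = (∑ i ∈ s, Y i) + Y a := by
      ext ω
      rw [Finset.sum_insert ha]
      simp [add_comm]
    rw [h3, h2, Finset.card_insert_of_notMem ha]
    push_cast
    simp

end Pool.Agent.BG.H85
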