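import Mathlib
import Pool.Agent.Lib.MP_f76209_pr_helper85.Walk

/-! Part P of MP_f76209_pr: one step of the recursion. -/

open MeasureTheory ProbabilityTheory Set
open scoped NNReal ENNReal
set_option autoImplicit false

namespace Pool.Agent.BG.H85

section Pair

variable {Ω : Type*} [MeasurableSpace Ω] {P : Measure Ω} [IsProbabilityMeasure P]

theorem indep_bound {U D : Ω → ℝ} (hU : Measurable U) (hD : Measurable D) (h : IndepFun U D P)
    (a κ : ℝ) (hκ : 0 ≤ κ)
    (hlaw : ∀ c : ℝ, (P.map D).real {y : ℝ | |c + y| ≤ 1 / 2} ≤ κ) :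
    P.real ({ω | |a + U ω| ≤ 1 / 2} ∩ {ω | |a + (U ω + D ω)| ≤ 1 / 2})
      ≤ P.real {ω | |a + U ω| ≤ 1 / 2} * κ := by
  have hUD : Measurable (fun ω => (U ω, D ω)) := hU.prodMk hD
  have hmap : P.map (fun ω => (U ω, D ω)) = (P.map U).prod (P.map D) :=
    (indepFun_iff_map_prod_eq_prod_map_map hU.aemeasurable hD.aemeasurable).mp h
  set T : Set (ℝ × ℝ) := {z | |a + z.1| ≤ 1 / 2 ∧ |a + (z.1 + z.2)| ≤ 1 / 2} with hT
  have hTm : MeasurableSet T := by
    have e1 : Measurable (fun z : ℝ × ℝ => |a + z.1|) := by fun_prop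
    have e2 : Measurable (fun z : ℝ × ℝ => |a + (z.1 + z.2)|) := by fun_prop
    exact (measurableSet_le e1 measurable_const).inter (measurableSet_le e2 measurable_const)
  have hset : ({ω | |a + U ω| ≤ 1 / 2} ∩ {ω | |a + (U ω + D ω)| ≤ 1 / 2})
      = (fun ω => (U ω, D ω)) ⁻¹' T := by
    ext ω; simp [hT]
  have hUm : MeasurableSet {y : ℝ | |a + y| ≤ 1 / 2} :=
    measurableSet_le (by fun_prop) measurable_const
  have hset2 : {ω | |a + U ω| ≤ 1 / 2} = U ⁻¹' {y : ℝ | |a + y| ≤ 1 / 2} := rfl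
  have : IsProbabilityMeasure (P.map U) := Measure.isProbabilityMeasure_map hU.aemeasurable
  have : IsProbabilityMeasure (P.map D) := Measure.isProbabilityMeasure_map hD.aemeasurable
  have hE : ((P.map U).prod (P.map D)) T
      ≤ ENNReal.ofReal κ * (P.map U) {y : ℝ | |a + y| ≤ 1 / 2} := by
    rw [Measure.prod_apply hTm]
    calc ∫⁻ x, (P.map D) (Prod.mk x ⁻¹' T) ∂(P.map U)
        ≤ ∫⁻ x, ({y : ℝ | |a + y| ≤ 1 / 2}).indicator (fun _ => ENNReal.ofReal κ) x ∂(P.map U) := by
          apply lintegral_mono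
          intro x
          by_cases hx : x ∈ {y : ℝ | |a + y| ≤ 1 / 2}
          · rw [indicator_of_mem hx]
            have h1 : Prod.mk x ⁻¹' T ⊆ {y : ℝ | |(a + x) + y| ≤ 1 / 2} := by
              intro y hy
              have := hy.2
              simpa [add_assoc] using this
            calc (P.map D) (Prod.mk x ⁻¹' T) ≤ (P.map D) {y : ℝ | |(a + x) + y| ≤ 1 / 2} :=
                  measure_mono h1
              _ ≤ ENNReal.ofReal κ := by
                  rw [← ENNReal.ofReal_toReal (measure_ne_top (P.map D) _)]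
                  exact ENNReal.ofReal_le_ofReal (hlaw (a + x))
          · rw [indicator_of_notMem hx]
            have h1 : Prod.mk x ⁻¹' T = ∅ := by
              ext y
              simp only [mem_preimage, mem_empty_iff_false, iff_false]
              intro hy
              exact hx hy.1
            show (P.map D) (Prod.mk x ⁻¹' T) ≤ 0
            rw [h1]; simp
      _ = ENNReal.ofReal κ * (P.map U) {y : ℝ | |a + y| ≤ 1 / 2} := by
          rw [lintegral_indicator_const hUm]
  rw [hset, hset2, measureReal_def, measureReal_def, ← Measure.map_apply hUD hTm, hmap,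
    ← Measure.map_apply hU hUm]
  calc (((P.map U).prod (P.map D)) T).toReal
      ≤ (ENNReal.ofReal κ * (P.map U) {y : ℝ | |a + y| ≤ 1 / 2}).toReal :=
        ENNReal.toReal_mono (ENNReal.mul_ne_top ENNReal.ofReal_ne_top (measure_ne_top _ _)) hE
    _ = _ := by rw [ENNReal.toReal_mul, ENNReal.toReal_ofReal hκ, mul_comm]

variable (Y : ℕ → Ω → ℝ) (hY : ∀ i, Measurable (Y i)) (hind : iIndepFun Y P)
  (hlaw : ∀ i, P.map (Y i) = gaussianReal 0 1)

/-- The event that the walk started at `a` is in `[-1/2,1/2]` at time `i`. -/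
def Aset (a : ℝ) (i : ℕ) : Set Ω := {ω | |a + ∑ l ∈ Finset.range i, Y l ω| ≤ 1 / 2}

omit [IsProbabilityMeasure P] in
include hY in
theorem Aset_meas (a : ℝ) (i : ℕ) : MeasurableSet (Aset Y a i) := by
  apply measurableSet_le _ measurable_const
  have : Measurable (fun ω => ∑ l ∈ Finset.range i, Y l ω) :=
    Finset.measurable_fun_sum _ (fun l _ => hY l)
  fun_prop

include hY hind hlaw in
theorem Aset_lower {M i : ℕ} (hM : 1 ≤ M) (h1 : M ^ 2 ≤ 2 * i) (h2 : i ≤ M ^ 2) (a : ℝ)
    (ha : |a| ≤ M) : Real.exp (-3) / (3 * M) ≤ P.real (Aset Y a i) := by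
  have h := law_sum Y hY hind hlaw (Finset.range i)
  rw [Finset.card_range] at h
  have h3 := gauss_lower hM h1 h2 a ha
  rw [← h, measureReal_def, Measure.map_apply (Finset.measurable_fun_sum _ (fun l _ => hY l))
    (measurableSet_le (by fun_prop) measurable_const)] at h3
  exact h3

include hY hind hlaw in
theorem pair_upper (a : ℝ) {i j : ℕ} (hij : i < j) :
    P.real (Aset Y a i ∩ Aset Y a j) ≤ P.real (Aset Y a i) * (1 / (2 * Real.sqrt ((j - i : ℕ) : ℝ))) := by
  classical
  set U : Ω → ℝ := fun ω => ∑ l ∈ Finset.range i, Y l ω with hU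
  set D : Ω → ℝ := fun ω => ∑ l ∈ Finset.Ico i j, Y l ω with hD
  have hUm : Measurable U := Finset.measurable_fun_sum _ (fun l _ => hY l)
  have hDm : Measurable D := Finset.measurable_fun_sum _ (fun l _ => hY l)
  have hdisj : Disjoint (Finset.range i) (Finset.Ico i j) := by
    rw [Finset.disjoint_left]
    intro x hx hx'
    simp at hx hx'
    omega
  have hI : IndepFun U D P := by
    have h1 := hind.indepFun_finset (Finset.range i) (Finset.Ico i j) hdisj hY
    have h2 := h1.comp (φ := fun f : (Finset.range i → ℝ) => ∑ l, f l)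
      (ψ := fun f : (Finset.Ico i j → ℝ) => ∑ l, f l) (by fun_prop) (by fun_prop)
    have e1 : U = (fun f : (Finset.range i → ℝ) => ∑ l, f l) ∘
        (fun a (l : Finset.range i) => Y l a) := by
      ext ω
      simp only [hU, Function.comp]
      rw [Finset.sum_coe_sort (Finset.range i) (fun l => Y l ω)]
    have e2 : D = (fun f : (Finset.Ico i j → ℝ) => ∑ l, f l) ∘
        (fun a (l : Finset.Ico i j) => Y l a) := by
      ext ω
      simp only [hD, Function.comp]
      rw [Finset.sum_coe_sort (Finset.Ico i j) (fun l => Y l ω)]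
    rw [e1, e2]
    exact h2
  have hlawD : P.map D = gaussianReal 0 ((j - i : ℕ) : ℝ≥0) := by
    have h := law_sum Y hY hind hlaw (Finset.Ico i j)
    rwa [Nat.card_Ico] at h
  have h4 := indep_bound hUm hDm hI a (1 / (2 * Real.sqrt ((j - i : ℕ) : ℝ))) (by positivity)
    (by
      intro c
      rw [hlawD]
      exact gauss_upper 0 (by omega) c)
  have e3 : Aset Y a j = {ω | |a + (U ω + D ω)| ≤ 1 / 2} := by
    ext ω
    simp only [Aset, mem_ofPred_eq, hU, hD]
    rw [← Finset.sum_range_add_sum_Ico _ hij.le]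
  rw [e3]
  exact h4

end Pair

/-- `∑_{k=1}^{n} 1/(2√k) ≤ √n`. -/
theorem sum_inv_sqrt (n : ℕ) :
    ∑ k ∈ Finset.range n, 1 / (2 * Real.sqrt ((k + 1 : ℕ) : ℝ)) ≤ Real.sqrt n := by
  induction n with
  | zero => simp
  | succ n ih =>
    rw [Finset.sum_range_succ]
    have h0 : (0 : ℝ) ≤ n := Nat.cast_nonneg n
    have h1 : 0 < Real.sqrt ((n + 1 : ℕ) : ℝ) := by
      apply Real.sqrt_pos.mpr; positivity
    have h2 : Real.sqrt n ≤ Real.sqrt ((n + 1 : ℕ) : ℝ) := by
      apply Real.sqrt_le_sqrt; push_cast; linarith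
    have h3 : Real.sqrt n ^ 2 = n := Real.sq_sqrt h0
    have h4 : Real.sqrt ((n + 1 : ℕ) : ℝ) ^ 2 = n + 1 := by
      rw [Real.sq_sqrt (by positivity)]; push_cast; ring
    have h5 : 0 ≤ Real.sqrt n := Real.sqrt_nonneg _
    have h6 : 1 / (2 * Real.sqrt ((n + 1 : ℕ) : ℝ)) ≤ Real.sqrt ((n + 1 : ℕ) : ℝ) - Real.sqrt n := by
      rw [div_le_iff₀ (by positivity)]
      nlinarith
    linarith

end Pool.Agent.BG.H85
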