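import Mathlib
import Pool.Agent.Lib.MP_f76209_pr_helper85.Step

/-! Part P of MP_f76209_pr: Paley–Zygmund type bound for the number of visits. -/

open MeasureTheory ProbabilityTheory Set
open scoped NNReal ENNReal
set_option autoImplicit false

namespace Pool.Agent.BG.H85

section PZ

variable {Ω : Type*} [MeasurableSpace Ω] {P : Measure Ω} [IsProbabilityMeasure P]

/-- Number of `i < n` with `ω ∈ A i`, as a real number. -/
noncomputable def cnt (A : ℕ → Set Ω) (n : ℕ) (ω : Ω) : ℝ :=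
  ∑ i ∈ Finset.range n, (A i).indicator (fun _ => (1 : ℝ)) ω

theorem cnt_meas {A : ℕ → Set Ω} (hA : ∀ i, MeasurableSet (A i)) (n : ℕ) :
    Measurable (cnt A n) :=
  Finset.measurable_fun_sum _ (fun i _ => measurable_const.indicator (hA i))

omit [MeasurableSpace Ω] in
theorem cnt_nonneg (A : ℕ → Set Ω) (n : ℕ) (ω : Ω) : 0 ≤ cnt A n ω :=
  Finset.sum_nonneg (fun i _ => indicator_nonneg (fun _ _ => zero_le_one) ω)

omit [MeasurableSpace Ω] in
theorem cnt_le (A : ℕ → Set Ω) (n : ℕ) (ω : Ω) : cnt A n ω ≤ n := by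
  unfold cnt
  calc ∑ i ∈ Finset.range n, (A i).indicator (fun _ => (1 : ℝ)) ω
      ≤ ∑ i ∈ Finset.range n, (1 : ℝ) :=
        Finset.sum_le_sum (fun i _ => indicator_le_self' (fun _ _ => zero_le_one) ω)
    _ = n := by simp

theorem cnt_int {A : ℕ → Set Ω} (hA : ∀ i, MeasurableSet (A i)) (n : ℕ) :
    Integrable (cnt A n) P := by
  refine Integrable.of_bound (cnt_meas hA n).aestronglyMeasurable n (ae_of_all _ fun ω => ?_)
  rw [Real.norm_of_nonneg (cnt_nonneg A n ω)]
  exact cnt_le A n ω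

theorem cnt_sq_int {A : ℕ → Set Ω} (hA : ∀ i, MeasurableSet (A i)) (n : ℕ) :
    Integrable (fun ω => cnt A n ω ^ 2) P := by
  refine Integrable.of_bound ((cnt_meas hA n).pow_const 2).aestronglyMeasurable ((n : ℝ) ^ 2)
    (ae_of_all _ fun ω => ?_)
  rw [Real.norm_of_nonneg (by positivity)]
  exact pow_le_pow_left₀ (cnt_nonneg A n ω) (cnt_le A n ω) 2

theorem integral_cnt {A : ℕ → Set Ω} (hA : ∀ i, MeasurableSet (A i)) (n : ℕ) :
    ∫ ω, cnt A n ω ∂P = ∑ i ∈ Finset.range n, P.real (A i) := by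
  unfold cnt
  rw [integral_finsetSum]
  · apply Finset.sum_congr rfl
    intro i _
    rw [integral_indicator_const _ (hA i)]
    simp
  · intro i _
    exact (integrable_const (1 : ℝ)).indicator (hA i)

theorem integral_cnt_sq {A : ℕ → Set Ω} (hA : ∀ i, MeasurableSet (A i)) (n : ℕ) :
    ∫ ω, cnt A n ω ^ 2 ∂P = ∑ i ∈ Finset.range n, P.real (A i)
      + 2 * ∑ j ∈ Finset.range n, ∑ i ∈ Finset.range j, P.real (A i ∩ A j) := by
  induction n with
  | zero => simp [cnt]
  | succ n ih =>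
    have e : ∀ ω, cnt A (n + 1) ω ^ 2 = cnt A n ω ^ 2
        + (2 * (∑ i ∈ Finset.range n, (A i ∩ A n).indicator (fun _ => (1 : ℝ)) ω)
          + (A n).indicator (fun _ => (1 : ℝ)) ω) := by
      intro ω
      have h1 : cnt A (n + 1) ω = cnt A n ω + (A n).indicator (fun _ => (1 : ℝ)) ω := by
        unfold cnt; rw [Finset.sum_range_succ]
      have h2 : (∑ i ∈ Finset.range n, (A i ∩ A n).indicator (fun _ => (1 : ℝ)) ω)
          = cnt A n ω * (A n).indicator (fun _ => (1 : ℝ)) ω := by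
        unfold cnt
        rw [Finset.sum_mul]
        apply Finset.sum_congr rfl
        intro i _
        by_cases h : ω ∈ A n
        · by_cases h' : ω ∈ A i
          · simp [h, h']
          · simp [h']
        · simp [h]
      have h3 : (A n).indicator (fun _ => (1 : ℝ)) ω ^ 2 = (A n).indicator (fun _ => (1 : ℝ)) ω := by
        by_cases h : ω ∈ A n <;> simp [h]
      rw [h1, h2]
      linear_combination h3
    simp_rw [e]
    have i1 : Integrable (fun ω => cnt A n ω ^ 2) P := cnt_sq_int hA n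
    have i2 : Integrable (fun ω => (A n).indicator (fun _ => (1 : ℝ)) ω) P :=
      (integrable_const (1 : ℝ)).indicator (hA n)
    have i3' : ∀ i ∈ Finset.range n,
        Integrable (fun ω => (A i ∩ A n).indicator (fun _ => (1 : ℝ)) ω) P := fun i _ =>
      (integrable_const (1 : ℝ)).indicator ((hA i).inter (hA n))
    have i3 : Integrable (fun ω => 2 * ∑ i ∈ Finset.range n,
        (A i ∩ A n).indicator (fun _ => (1 : ℝ)) ω) P :=
      (integrable_finsetSum _ i3').const_mul 2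
    have i23 : Integrable (fun ω => 2 * (∑ i ∈ Finset.range n,
        (A i ∩ A n).indicator (fun _ => (1 : ℝ)) ω) + (A n).indicator (fun _ => (1 : ℝ)) ω) P :=
      i3.add i2
    rw [integral_add i1 i23, integral_add i3 i2, integral_const_mul,
      integral_finsetSum _ i3', ih, integral_indicator_const _ (hA n)]
    have e3 : ∑ i ∈ Finset.range n, ∫ ω, (A i ∩ A n).indicator (fun _ => (1 : ℝ)) ω ∂P
        = ∑ i ∈ Finset.range n, P.real (A i ∩ A n) := by
      apply Finset.sum_congr rfl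
      intro i _
      rw [integral_indicator_const _ ((hA i).inter (hA n))]
      simp
    rw [e3, Finset.sum_range_succ, Finset.sum_range_succ _ n]
    simp only [smul_eq_mul, mul_one]
    ring

theorem pz {A : ℕ → Set Ω} (hA : ∀ i, MeasurableSet (A i)) (n : ℕ) {κ θ : ℝ} (hκ : 0 ≤ κ)
    (hθ : 2 * θ ≤ ∑ i ∈ Finset.range n, P.real (A i))
    (hpair : ∑ j ∈ Finset.range n, ∑ i ∈ Finset.range j, P.real (A i ∩ A j)
      ≤ κ * ∑ i ∈ Finset.range n, P.real (A i)) :
    ∑ i ∈ Finset.range n, P.real (A i) ≤ 4 * (1 + 2 * κ) * P.real {ω | θ ≤ cnt A n ω} := by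
  set Ez := ∑ i ∈ Finset.range n, P.real (A i) with hEz
  have hB : MeasurableSet {ω | θ ≤ cnt A n ω} := measurableSet_le measurable_const (cnt_meas hA n)
  set K : ℝ := 2 * (1 + 2 * κ) with hK
  have hKpos : 0 < K := by positivity
  have hpt : ∀ ω, cnt A n ω ≤ θ ⊔ 0 + (cnt A n ω ^ 2 / (2 * K)
      + {ω | θ ≤ cnt A n ω}.indicator (fun _ => K / 2) ω) := by
    intro ω
    have h0 := cnt_nonneg A n ω
    by_cases h : θ ≤ cnt A n ω
    · have : ω ∈ {ω | θ ≤ cnt A n ω} := h
      rw [indicator_of_mem this]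
      have h1 : cnt A n ω ≤ cnt A n ω ^ 2 / (2 * K) + K / 2 := by
        rw [div_add_div _ _ (by positivity) (by norm_num), le_div_iff₀ (by positivity)]
        nlinarith [sq_nonneg (cnt A n ω - K)]
      have h2 : (0 : ℝ) ≤ θ ⊔ 0 := le_sup_right
      linarith
    · have : ω ∉ {ω | θ ≤ cnt A n ω} := h
      rw [indicator_of_notMem this]
      push Not at h
      have h2 : θ ≤ θ ⊔ 0 := le_sup_left
      have h3 : 0 ≤ cnt A n ω ^ 2 / (2 * K) := by positivity
      linarith
  have i1 : Integrable (fun ω => cnt A n ω ^ 2 / (2 * K)) P := (cnt_sq_int hA n).div_const _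
  have i2 : Integrable (fun ω => {ω | θ ≤ cnt A n ω}.indicator (fun _ => K / 2) ω) P :=
    (integrable_const _).indicator hB
  have i12 : Integrable (fun ω => cnt A n ω ^ 2 / (2 * K)
      + {ω | θ ≤ cnt A n ω}.indicator (fun _ => K / 2) ω) P := i1.add i2
  have i0 : Integrable (fun _ : Ω => θ ⊔ 0) P := integrable_const _
  have i012 : Integrable (fun ω => θ ⊔ 0 + (cnt A n ω ^ 2 / (2 * K)
      + {ω | θ ≤ cnt A n ω}.indicator (fun _ => K / 2) ω)) P := i0.add i12
  have h1 := integral_mono (cnt_int (P := P) hA n) i012 hpt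
  have h2 : ∫ ω, (θ ⊔ 0 + (cnt A n ω ^ 2 / (2 * K)
      + {ω | θ ≤ cnt A n ω}.indicator (fun _ => K / 2) ω)) ∂P
      = (θ ⊔ 0) + ((∫ ω, cnt A n ω ^ 2 ∂P) / (2 * K) + P.real {ω | θ ≤ cnt A n ω} * (K / 2)) := by
    rw [integral_add i0 i12, integral_add i1 i2, integral_const,
      integral_div, integral_indicator_const _ hB]
    simp
  have h3 : ∫ ω, cnt A n ω ∂P = Ez := integral_cnt hA n
  have h4 : ∫ ω, cnt A n ω ^ 2 ∂P ≤ Ez * (1 + 2 * κ) := by
    rw [integral_cnt_sq hA n, ← hEz]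
    linarith
  rw [h3] at h1
  have h5 : Ez ≤ (θ ⊔ 0) + ((∫ ω, cnt A n ω ^ 2 ∂P) / (2 * K)
      + P.real {ω | θ ≤ cnt A n ω} * (K / 2)) := h1.trans h2.le
  have hEz0 : 0 ≤ Ez := Finset.sum_nonneg (fun i _ => measureReal_nonneg)
  have h6 : (∫ ω, cnt A n ω ^ 2 ∂P) / (2 * K) ≤ Ez / 4 := by
    rw [div_le_div_iff₀ (by positivity) (by norm_num)]
    nlinarith
  have h7 : θ ⊔ 0 ≤ Ez / 2 := by
    apply sup_le <;> linarith
  nlinarith

end PZ

section Visits

variable {Ω : Type*} [MeasurableSpace Ω] {P : Measure Ω} [IsProbabilityMeasure P]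
variable (Y : ℕ → Ω → ℝ) (hY : ∀ i, Measurable (Y i)) (hind : iIndepFun Y P)
  (hlaw : ∀ i, P.map (Y i) = gaussianReal 0 1)

include hY hind hlaw in
theorem pair_sum (a : ℝ) (n : ℕ) :
    ∑ j ∈ Finset.range n, ∑ i ∈ Finset.range j, P.real (Aset Y a i ∩ Aset Y a j)
      ≤ Real.sqrt n * ∑ i ∈ Finset.range n, P.real (Aset Y a i) := by
  calc ∑ j ∈ Finset.range n, ∑ i ∈ Finset.range j, P.real (Aset Y a i ∩ Aset Y a j)
      ≤ ∑ j ∈ Finset.range n, ∑ i ∈ Finset.range j,
          P.real (Aset Y a i) * (1 / (2 * Real.sqrt ((j - i : ℕ) : ℝ))) := by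
        apply Finset.sum_le_sum
        intro j _
        apply Finset.sum_le_sum
        intro i hi
        exact pair_upper Y hY hind hlaw a (Finset.mem_range.mp hi)
    _ = ∑ i ∈ Finset.range n, ∑ j ∈ Finset.Ico (i + 1) n,
          P.real (Aset Y a i) * (1 / (2 * Real.sqrt ((j - i : ℕ) : ℝ))) := by
        apply Finset.sum_comm'
        intro j i
        simp only [Finset.mem_range, Finset.mem_Ico]
        omega
    _ ≤ ∑ i ∈ Finset.range n, P.real (Aset Y a i) * Real.sqrt n := by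
        apply Finset.sum_le_sum
        intro i _
        rw [← Finset.mul_sum]
        apply mul_le_mul_of_nonneg_left _ measureReal_nonneg
        rw [Finset.sum_Ico_eq_sum_range]
        calc ∑ k ∈ Finset.range (n - (i + 1)), 1 / (2 * Real.sqrt ((i + 1 + k - i : ℕ) : ℝ))
            = ∑ k ∈ Finset.range (n - (i + 1)), 1 / (2 * Real.sqrt ((k + 1 : ℕ) : ℝ)) := by
              apply Finset.sum_congr rfl
              intro k _
              rw [show i + 1 + k - i = k + 1 by omega]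
          _ ≤ Real.sqrt ((n - (i + 1) : ℕ) : ℝ) := sum_inv_sqrt _
          _ ≤ Real.sqrt n := by
              apply Real.sqrt_le_sqrt
              exact_mod_cast Nat.sub_le _ _
    _ = Real.sqrt n * ∑ i ∈ Finset.range n, P.real (Aset Y a i) := by
        rw [Finset.mul_sum]
        apply Finset.sum_congr rfl
        intro i _
        ring

/-- The constant `c = e^{-3}/3`. -/
noncomputable def cst : ℝ := Real.exp (-3) / 3

theorem cst_pos : 0 < cst := by unfold cst; positivity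

theorem cst_lt_one : cst < 1 := by
  unfold cst
  have : Real.exp (-3) ≤ 1 := by
    rw [Real.exp_le_one_iff]; norm_num
  linarith

include hY hind hlaw in
theorem mean_lower {M : ℕ} (hM : 4 ≤ M) (a : ℝ) (ha : |a| ≤ M) :
    cst * M / 4 ≤ ∑ i ∈ Finset.range (M ^ 2), P.real (Aset Y a i) := by
  have hMR : (4 : ℝ) ≤ M := by exact_mod_cast hM
  have h1 : ∑ i ∈ Finset.Ico ((M ^ 2 + 1) / 2) (M ^ 2), (cst / M) ≤
      ∑ i ∈ Finset.range (M ^ 2), P.real (Aset Y a i) := by
    calc ∑ i ∈ Finset.Ico ((M ^ 2 + 1) / 2) (M ^ 2), (cst / M)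
        ≤ ∑ i ∈ Finset.Ico ((M ^ 2 + 1) / 2) (M ^ 2), P.real (Aset Y a i) := by
          apply Finset.sum_le_sum
          intro i hi
          rw [Finset.mem_Ico] at hi
          have := Aset_lower Y hY hind hlaw (M := M) (i := i) (by omega) (by omega) (by omega) a ha
          calc cst / M = Real.exp (-3) / (3 * M) := by unfold cst; rw [div_div]
            _ ≤ _ := this
      _ ≤ ∑ i ∈ Finset.range (M ^ 2), P.real (Aset Y a i) := by
          apply Finset.sum_le_sum_of_subset_of_nonneg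
          · intro i hi
            rw [Finset.mem_Ico] at hi
            exact Finset.mem_range.mpr hi.2
          · intro i _ _
            exact measureReal_nonneg
  refine le_trans ?_ h1
  rw [Finset.sum_const, Nat.card_Ico, nsmul_eq_mul]
  have h2 : (M ^ 2 : ℕ) ≤ 4 * (M ^ 2 - (M ^ 2 + 1) / 2) := by
    have : 16 ≤ M ^ 2 := by nlinarith
    omega
  have h3 : (M : ℝ) ^ 2 ≤ 4 * ((M ^ 2 - (M ^ 2 + 1) / 2 : ℕ) : ℝ) := by exact_mod_cast h2
  have hc := cst_pos
  rw [mul_div_assoc', le_div_iff₀ (by positivity)]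
  nlinarith

include hY hind hlaw in
/-- Many visits with probability at least `cst / 48`. -/
theorem visits {M : ℕ} (hM : 4 ≤ M) (a : ℝ) (ha : |a| ≤ M) :
    cst / 48 ≤ P.real {ω | cst * M / 8 ≤ cnt (Aset Y a) (M ^ 2) ω} := by
  have hMR : (4 : ℝ) ≤ M := by exact_mod_cast hM
  have h1 := mean_lower Y hY hind hlaw hM a ha
  have h2 := pair_sum Y hY hind hlaw a (M ^ 2)
  have h3 : Real.sqrt ((M ^ 2 : ℕ) : ℝ) = M := by
    push_cast
    exact Real.sqrt_sq (by linarith)
  rw [h3] at h2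
  have h4 := pz (P := P) (A := Aset Y a) (Aset_meas Y hY a) (M ^ 2) (κ := M) (θ := cst * M / 8)
    (by linarith) (by linarith) h2
  have hc := cst_pos
  have h5 : cst * M / 4 ≤ 4 * (1 + 2 * M) * P.real {ω | cst * M / 8 ≤ cnt (Aset Y a) (M ^ 2) ω} :=
    h1.trans h4
  have h6 : 4 * (1 + 2 * (M : ℝ)) * P.real {ω | cst * M / 8 ≤ cnt (Aset Y a) (M ^ 2) ω}
      ≤ 12 * M * P.real {ω | cst * M / 8 ≤ cnt (Aset Y a) (M ^ 2) ω} := by
    apply mul_le_mul_of_nonneg_right _ measureReal_nonneg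
    linarith
  have h7 : cst * M / 4 ≤ 12 * M * P.real {ω | cst * M / 8 ≤ cnt (Aset Y a) (M ^ 2) ω} :=
    h5.trans h6
  have h8 : (M : ℝ) * (cst / 48) ≤ M * P.real {ω | cst * M / 8 ≤ cnt (Aset Y a) (M ^ 2) ω} := by
    linarith
  exact le_of_mul_le_mul_left h8 (by linarith)

end Visits

end Pool.Agent.BG.H85
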