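import Mathlib
import Pool.Agent.Lib.MP_f76209_pr_helper85.PZ

/-! Part P of MP_f76209_pr: the exponential supermartingale and the recursion step. -/

open MeasureTheory ProbabilityTheory Set
open scoped NNReal ENNReal Classical
set_option autoImplicit false

namespace Pool.Agent.BG.H85

section Defs

variable {E : Type*} (s : E → ℝ) (G : ℝ → E → Prop)

/-- Position of the walk at time `i`. -/
def pos (a : ℝ) (H : ℕ → E) (i : ℕ) : ℝ := a + ∑ l ∈ Finset.range i, s (H l)

/-- The factor at time `i`. -/
noncomputable def zf (a δ r : ℝ) (i : ℕ) (H : ℕ → E) (y : E) : ℝ :=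
  if |pos s a H i| ≤ 1 / 2 then (if G (pos s a H i - δ) y then r⁻¹ / 2 else r⁻¹) else 1

/-- The product of the factors. -/
noncomputable def Phi (a δ r : ℝ) (n : ℕ) (H : ℕ → E) : ℝ :=
  ∏ i ∈ Finset.range n, zf s G a δ r i H (H i)

/-- Number of visits. -/
noncomputable def Zc (a : ℝ) (n : ℕ) (H : ℕ → E) : ℕ :=
  ((Finset.range n).filter (fun i => |pos s a H i| ≤ 1 / 2)).card

/-- Number of good visits. -/
noncomputable def Vc (a δ : ℝ) (n : ℕ) (H : ℕ → E) : ℕ :=
  ((Finset.range n).filter (fun i => |pos s a H i| ≤ 1 / 2 ∧ G (pos s a H i - δ) (H i))).card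

theorem pos_congr {a : ℝ} {H H' : ℕ → E} {i : ℕ} (h : ∀ l < i, H l = H' l) :
    pos s a H i = pos s a H' i := by
  unfold pos
  congr 1
  apply Finset.sum_congr rfl
  intro l hl
  rw [h l (Finset.mem_range.mp hl)]

theorem Phi_congr {a δ r : ℝ} {H H' : ℕ → E} {n : ℕ} (h : ∀ l < n, H l = H' l) :
    Phi s G a δ r n H = Phi s G a δ r n H' := by
  unfold Phi
  apply Finset.prod_congr rfl
  intro i hi
  have hi' := Finset.mem_range.mp hi
  unfold zf
  rw [pos_congr s (fun l hl => h l (hl.trans hi')), h i hi']

theorem zf_nonneg {a δ r : ℝ} (hr : 0 < r) (i : ℕ) (H : ℕ → E) (y : E) :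
    0 ≤ zf s G a δ r i H y := by
  unfold zf
  split_ifs <;> positivity

theorem Phi_nonneg {a δ r : ℝ} (hr : 0 < r) (n : ℕ) (H : ℕ → E) :
    0 ≤ Phi s G a δ r n H :=
  Finset.prod_nonneg (fun i _ => zf_nonneg s G hr i H (H i))

theorem Phi_eq (a δ r : ℝ) (n : ℕ) (H : ℕ → E) :
    Phi s G a δ r n H = (r⁻¹) ^ (Zc s a n H) * (1 / 2) ^ (Vc s G a δ n H) := by
  induction n with
  | zero => simp [Phi, Zc, Vc]
  | succ n ih =>
    have h1 : Phi s G a δ r (n + 1) H = Phi s G a δ r n H * zf s G a δ r n H (H n) := by
      unfold Phi; rw [Finset.prod_range_succ]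
    rw [h1, ih]
    unfold Zc Vc zf
    rw [Finset.range_add_one, Finset.filter_insert, Finset.filter_insert]
    by_cases hp : |pos s a H n| ≤ 1 / 2
    · by_cases hg : G (pos s a H n - δ) (H n)
      · rw [if_pos hp, if_pos hg, if_pos hp, if_pos ⟨hp, hg⟩,
          Finset.card_insert_of_notMem (by simp), Finset.card_insert_of_notMem (by simp)]
        rw [pow_succ, pow_succ]
        ring
      · rw [if_pos hp, if_neg hg, if_pos hp, if_neg (fun h => hg h.2),
          Finset.card_insert_of_notMem (by simp)]
        rw [pow_succ]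
        ring
    · rw [if_neg hp, if_neg hp, if_neg (fun h => hp h.1), mul_one]

end Defs

section Super

variable {Ω : Type*} [MeasurableSpace Ω] {P : Measure Ω} [IsProbabilityMeasure P]
variable {E : Type*} [MeasurableSpace E] [Inhabited E] (X : ℕ → Ω → E)
  (hX : ∀ i, Measurable (X i)) (hind : iIndepFun X P)
  (s : E → ℝ) (hs : Measurable s)
  (G : ℝ → E → Prop) (hG : MeasurableSet {z : ℝ × E | G z.1 z.2})

omit [Inhabited E] in
include hs in
theorem pos_meas (a : ℝ) (i : ℕ) : Measurable (fun H : ℕ → E => pos s a H i) := by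
  unfold pos
  apply Measurable.add measurable_const
  apply Finset.measurable_fun_sum
  intro l _
  exact hs.comp (measurable_pi_apply l)

omit [Inhabited E] in
include hs hG in
theorem zf_meas (a δ r : ℝ) (i : ℕ) :
    Measurable (fun z : (ℕ → E) × E => zf s G a δ r i z.1 z.2) := by
  unfold zf
  have h1 : Measurable (fun z : (ℕ → E) × E => pos s a z.1 i) :=
    (pos_meas s hs a i).comp measurable_fst
  apply Measurable.ite
  · exact measurableSet_le (by fun_prop) measurable_const
  · apply Measurable.ite
    · have h2 : Measurable (fun z : (ℕ → E) × E => (pos s a z.1 i - δ, z.2)) :=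
        (h1.sub_const δ).prodMk measurable_snd
      exact h2 hG
    · exact measurable_const
    · exact measurable_const
  · exact measurable_const

omit [Inhabited E] in
include hs hG in
theorem Phi_meas (a δ r : ℝ) (n : ℕ) :
    Measurable (fun H : ℕ → E => Phi s G a δ r n H) := by
  unfold Phi
  apply Finset.measurable_fun_prod
  intro i _
  exact (zf_meas s hs G hG a δ r i).comp (measurable_id.prodMk (measurable_pi_apply i))

/-- The history before time `n`. -/
noncomputable def hist (n : ℕ) (ω : Ω) : ℕ → E := fun l => if l < n then X l ω else default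

omit [IsProbabilityMeasure P] in
include hX in
theorem hist_meas (n : ℕ) : Measurable (hist X n) := by
  apply measurable_pi_lambda
  intro l
  unfold hist
  by_cases h : l < n
  · simp only [h, if_true]; exact hX l
  · simp only [h, if_false]; exact measurable_const

omit [IsProbabilityMeasure P] in
include hX hind in
theorem hist_indep (n : ℕ) : IndepFun (hist X n) (X n) P := by
  have hdisj : Disjoint (Finset.range n) ({n} : Finset ℕ) := by simp
  have h1 := hind.indepFun_finset (Finset.range n) {n} hdisj hX
  have hφ : Measurable (fun f : (Finset.range n → E) => fun l : ℕ =>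
      if h : l ∈ Finset.range n then f ⟨l, h⟩ else (default : E)) := by
    apply measurable_pi_lambda
    intro l
    by_cases h : l ∈ Finset.range n
    · simp only [h, dif_pos]; exact measurable_pi_apply _
    · simp only [h, dif_neg, not_false_eq_true]; exact measurable_const
  have hψ : Measurable (fun f : (({n} : Finset ℕ) → E) => f ⟨n, by simp⟩) := measurable_pi_apply _
  have h2 := h1.comp hφ hψ
  have e1 : hist X n = (fun f : (Finset.range n → E) => fun l : ℕ =>
      if h : l ∈ Finset.range n then f ⟨l, h⟩ else (default : E)) ∘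
      (fun a (i : Finset.range n) => X i a) := by
    ext ω l
    simp only [hist, Function.comp, Finset.mem_range]
    by_cases h : l < n <;> simp [h]
  have e2 : X n = (fun f : (({n} : Finset ℕ) → E) => f ⟨n, by simp⟩) ∘
      (fun a (i : ({n} : Finset ℕ)) => X i a) := by
    ext ω
    simp [Function.comp]
  rw [e1, e2]
  exact h2

variable {p : ℝ} (hp0 : 0 < p) (hp1 : p ≤ 1)
  (hGp : ∀ i x, |x| ≤ 1 → p ≤ P.real {ω | G x (X i ω)})

include hX hind hs hG hp0 hp1 hGp in
theorem supermart (a δ : ℝ) (hδ : |δ| ≤ 1 / 2) (n : ℕ) :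
    ∫⁻ ω, ENNReal.ofReal (Phi s G a δ (1 - p / 2) n (fun l => X l ω)) ∂P ≤ 1 := by
  have hr : 0 < 1 - p / 2 := by linarith
  induction n with
  | zero => simp [Phi]
  | succ n ih =>
    set r := 1 - p / 2 with hrdef
    have hHm := hist_meas (E := E) X hX n
    have hI := hist_indep X hX hind n
    have hmap : P.map (fun ω => (hist X n ω, X n ω)) = (P.map (hist X n)).prod (P.map (X n)) :=
      (indepFun_iff_map_prod_eq_prod_map_map hHm.aemeasurable (hX n).aemeasurable).mp hI
    have : IsProbabilityMeasure (P.map (hist X n)) :=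
      Measure.isProbabilityMeasure_map hHm.aemeasurable
    have : IsProbabilityMeasure (P.map (X n)) :=
      Measure.isProbabilityMeasure_map (hX n).aemeasurable
    have hPm : Measurable (fun H : ℕ → E => ENNReal.ofReal (Phi s G a δ r n H)) :=
      (Phi_meas s hs G hG a δ r n).ennreal_ofReal
    have hZm : Measurable (fun z : (ℕ → E) × E => ENNReal.ofReal (zf s G a δ r n z.1 z.2)) :=
      (zf_meas s hs G hG a δ r n).ennreal_ofReal
    have hFm : Measurable (fun z : (ℕ → E) × E => ENNReal.ofReal (Phi s G a δ r n z.1)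
            * ENNReal.ofReal (zf s G a δ r n z.1 z.2)) := (hPm.comp measurable_fst).mul hZm
    have hagree : ∀ ω, ∀ l < n, X l ω = hist X n ω l := by
      intro ω l hl
      simp [hist, hl]
    have e1 : ∀ ω, ENNReal.ofReal (Phi s G a δ r (n + 1) (fun l => X l ω))
        = ENNReal.ofReal (Phi s G a δ r n (hist X n ω))
          * ENNReal.ofReal (zf s G a δ r n (hist X n ω) (X n ω)) := by
      intro ω
      rw [← ENNReal.ofReal_mul (Phi_nonneg s G hr n _)]
      congr 1
      have h1 : Phi s G a δ r (n + 1) (fun l => X l ω)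
          = Phi s G a δ r n (fun l => X l ω) * zf s G a δ r n (fun l => X l ω) (X n ω) := by
        unfold Phi; rw [Finset.prod_range_succ]
      rw [h1, Phi_congr s G (hagree ω)]
      congr 1
      unfold zf
      rw [pos_congr s (hagree ω)]
    have hin : ∀ H : ℕ → E, ∫⁻ y, ENNReal.ofReal (zf s G a δ r n H y) ∂(P.map (X n)) ≤ 1 := by
      intro H
      by_cases hpos : |pos s a H n| ≤ 1 / 2
      · have hx : |pos s a H n - δ| ≤ 1 := by
          calc |pos s a H n - δ| ≤ |pos s a H n| + |δ| := abs_sub _ _
            _ ≤ 1 := by linarith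
        set x := pos s a H n - δ with hxdef
        have hGx : MeasurableSet {y : E | G x y} := by
          have : Measurable (fun y : E => (x, y)) := by fun_prop
          exact this hG
        have hz : ∀ y, zf s G a δ r n H y
            = r⁻¹ - {y : E | G x y}.indicator (fun _ => r⁻¹ / 2) y := by
          intro y
          unfold zf
          rw [if_pos hpos]
          by_cases hg : G x y
          · rw [if_pos hg, indicator_of_mem (show y ∈ {y : E | G x y} from hg)]; ring
          · rw [if_neg hg, indicator_of_notMem (show y ∉ {y : E | G x y} from hg)]; ring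
        have hint : Integrable (fun y => zf s G a δ r n H y) (P.map (X n)) := by
          simp_rw [hz]
          exact (integrable_const _).sub ((integrable_const _).indicator hGx)
        rw [← ofReal_integral_eq_lintegral_ofReal hint
          (ae_of_all _ (fun y => zf_nonneg s G hr n H y))]
        simp_rw [hz]
        rw [integral_sub (integrable_const _) ((integrable_const _).indicator hGx),
          integral_indicator_const _ hGx, integral_const]
        have hν : p ≤ (P.map (X n)).real {y : E | G x y} := by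
          rw [measureReal_def, Measure.map_apply (hX n) hGx]
          exact hGp n x hx
        rw [← ENNReal.ofReal_one]
        apply ENNReal.ofReal_le_ofReal
        simp only [probReal_univ, smul_eq_mul, one_mul]
        have h3 : p * (r⁻¹ / 2) ≤ (P.map (X n)).real {y : E | G x y} * (r⁻¹ / 2) :=
          mul_le_mul_of_nonneg_right hν (by positivity)
        have h4 : r⁻¹ - p * (r⁻¹ / 2) = 1 := by
          have : r ≠ 0 := hr.ne'
          field_simp
          rw [hrdef]; ring
        linarith
      · have hz : ∀ y, zf s G a δ r n H y = 1 := by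
          intro y
          unfold zf
          rw [if_neg hpos]
        simp_rw [hz]
        simp
    calc ∫⁻ ω, ENNReal.ofReal (Phi s G a δ r (n + 1) (fun l => X l ω)) ∂P
        = ∫⁻ ω, (fun z : (ℕ → E) × E => ENNReal.ofReal (Phi s G a δ r n z.1)
            * ENNReal.ofReal (zf s G a δ r n z.1 z.2)) (hist X n ω, X n ω) ∂P := by
          apply lintegral_congr
          intro ω
          exact e1 ω
      _ = ∫⁻ z, ENNReal.ofReal (Phi s G a δ r n z.1)
            * ENNReal.ofReal (zf s G a δ r n z.1 z.2) ∂(P.map (fun ω => (hist X n ω, X n ω))) := by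
          rw [lintegral_map hFm (hHm.prodMk (hX n))]
      _ = ∫⁻ H, ∫⁻ y, ENNReal.ofReal (Phi s G a δ r n H)
            * ENNReal.ofReal (zf s G a δ r n H y) ∂(P.map (X n)) ∂(P.map (hist X n)) := by
          rw [hmap, lintegral_prod _ hFm.aemeasurable]
      _ ≤ ∫⁻ H, ENNReal.ofReal (Phi s G a δ r n H) ∂(P.map (hist X n)) := by
          apply lintegral_mono
          intro H
          have hm : Measurable (fun y => ENNReal.ofReal (zf s G a δ r n H y)) :=
            hZm.comp (measurable_const.prodMk measurable_id)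
          show ∫⁻ y, ENNReal.ofReal (Phi s G a δ r n H)
            * ENNReal.ofReal (zf s G a δ r n H y) ∂(P.map (X n)) ≤ ENNReal.ofReal (Phi s G a δ r n H)
          rw [lintegral_const_mul _ hm]
          exact mul_le_of_le_one_right (by positivity) (hin H)
      _ = ∫⁻ ω, ENNReal.ofReal (Phi s G a δ r n (hist X n ω)) ∂P := by
          rw [lintegral_map hPm hHm]
      _ = ∫⁻ ω, ENNReal.ofReal (Phi s G a δ r n (fun l => X l ω)) ∂P := by
          apply lintegral_congr
          intro ω
          rw [Phi_congr s G (hagree ω)]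
      _ ≤ 1 := ih

include hX hind hs hG hp0 hp1 hGp in
theorem few_good (a δ : ℝ) (hδ : |δ| ≤ 1 / 2) (n m : ℕ) :
    P.real {ω | m ≤ Zc s a n (fun l => X l ω) ∧ Vc s G a δ n (fun l => X l ω) ≤ 7}
      ≤ 2 ^ 7 * (1 - p / 2) ^ m := by
  have hr : 0 < 1 - p / 2 := by linarith
  have hr1 : 1 - p / 2 ≤ 1 := by linarith
  set r := 1 - p / 2 with hrdef
  have h1 := supermart X hX hind s hs G hG hp0 hp1 hGp a δ hδ n
  rw [← hrdef] at h1
  set ε : ℝ := (r⁻¹) ^ m * (1 / 2) ^ 7 with hε
  have hεpos : 0 < ε := by positivity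
  have hmeasF : Measurable (fun ω => ENNReal.ofReal (Phi s G a δ r n (fun l => X l ω))) := by
    have h2 : Measurable (fun ω => (fun l => X l ω)) := measurable_pi_lambda _ hX
    exact ((Phi_meas s hs G hG a δ r n).comp h2).ennreal_ofReal
  have h2 := meas_ge_le_lintegral_div (μ := P) hmeasF.aemeasurable
    (ε := ENNReal.ofReal ε) (by simpa using hεpos) ENNReal.ofReal_ne_top
  have h3 : {ω | m ≤ Zc s a n (fun l => X l ω) ∧ Vc s G a δ n (fun l => X l ω) ≤ 7}
      ⊆ {ω | ENNReal.ofReal ε ≤ ENNReal.ofReal (Phi s G a δ r n (fun l => X l ω))} := by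
    rintro ω ⟨hz, hv⟩
    apply ENNReal.ofReal_le_ofReal
    rw [Phi_eq]
    have hri : 1 ≤ r⁻¹ := (one_le_inv₀ hr).mpr hr1
    apply mul_le_mul
    · exact pow_le_pow_right₀ hri hz
    · exact pow_le_pow_of_le_one (by norm_num) (by norm_num) hv
    · positivity
    · positivity
  have h4 : P {ω | m ≤ Zc s a n (fun l => X l ω) ∧ Vc s G a δ n (fun l => X l ω) ≤ 7}
      ≤ ENNReal.ofReal (2 ^ 7 * r ^ m) := by
    calc P {ω | m ≤ Zc s a n (fun l => X l ω) ∧ Vc s G a δ n (fun l => X l ω) ≤ 7}
        ≤ P {ω | ENNReal.ofReal ε ≤ ENNReal.ofReal (Phi s G a δ r n (fun l => X l ω))} :=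
          measure_mono h3
      _ ≤ (∫⁻ ω, ENNReal.ofReal (Phi s G a δ r n (fun l => X l ω)) ∂P) / ENNReal.ofReal ε := h2
      _ ≤ 1 / ENNReal.ofReal ε := ENNReal.div_le_div_right h1 _
      _ = ENNReal.ofReal (2 ^ 7 * r ^ m) := by
          rw [← ENNReal.ofReal_one, ← ENNReal.ofReal_div_of_pos hεpos]
          congr 1
          rw [hε, inv_pow]
          have : r ^ m ≠ 0 := (pow_pos hr m).ne'
          field_simp
  rw [measureReal_def]
  calc (P {ω | m ≤ Zc s a n (fun l => X l ω) ∧ Vc s G a δ n (fun l => X l ω) ≤ 7}).toReal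
      ≤ (ENNReal.ofReal (2 ^ 7 * r ^ m)).toReal := ENNReal.toReal_mono ENNReal.ofReal_ne_top h4
    _ = 2 ^ 7 * r ^ m := ENNReal.toReal_ofReal (by positivity)

end Super

end Pool.Agent.BG.H85
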