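import Mathlib
import Pool.Agent.Lib.MP_f76209_pr_helper85.Super

/-! Part P of MP_f76209_pr: recursion over the depth. -/

open MeasureTheory ProbabilityTheory Set
open scoped NNReal ENNReal Classical
set_option autoImplicit false

namespace Pool.Agent.BG.H85

section Step

variable {Ω : Type*} [MeasurableSpace Ω] {P : Measure Ω} [IsProbabilityMeasure P]
variable {E : Type*} [MeasurableSpace E] [Inhabited E] (X : ℕ → Ω → E)
  (hX : ∀ i, Measurable (X i)) (hind : iIndepFun X P)
  (s : E → ℝ) (hs : Measurable s) (hlaw : ∀ i, P.map (fun ω => s (X i ω)) = gaussianReal 0 1)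
  (G : ℝ → E → Prop) (hG : MeasurableSet {z : ℝ × E | G z.1 z.2})

/-- The probability bound `p = c₀ / 2`. -/
noncomputable def pp : ℝ := cst / 96

theorem pp_pos : 0 < pp := by unfold pp; have := cst_pos; positivity
theorem pp_le_one : pp ≤ 1 := by unfold pp; have := cst_lt_one; linarith

include hX hind hs hlaw hG in
theorem step {M m : ℕ} (hM : 4 ≤ M) (hm : (m : ℝ) ≤ cst * M / 8)
    (hbig : (2 * M + 1) * (2 ^ 7 * (1 - pp / 2) ^ m) ≤ cst / 96)
    (hGp : ∀ i x, |x| ≤ 1 → pp ≤ P.real {ω | G x (X i ω)}) (x : ℝ) (hx : |x| ≤ 1) :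
    pp ≤ P.real {ω | ∀ e : ℤ, |e| ≤ M → ∃ S ∈ (Finset.range (M ^ 2)).powersetCard 8, ∀ i ∈ S,
      G (M * x + (∑ l ∈ Finset.range i, s (X l ω)) - e / (2 * M)) (X i ω)} := by
  have hMR : (4 : ℝ) ≤ M := by exact_mod_cast hM
  set T := {ω | ∀ e : ℤ, |e| ≤ M → ∃ S ∈ (Finset.range (M ^ 2)).powersetCard 8, ∀ i ∈ S,
      G (M * x + (∑ l ∈ Finset.range i, s (X l ω)) - e / (2 * M)) (X i ω)} with hT
  set a : ℝ := M * x with ha
  have haM : |a| ≤ M := by
    rw [ha, abs_mul, abs_of_nonneg (by linarith : (0 : ℝ) ≤ M)]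
    nlinarith [abs_nonneg x]
  have hYm : ∀ i, Measurable (fun ω => s (X i ω)) := fun i => hs.comp (hX i)
  have hYind : iIndepFun (fun i ω => s (X i ω)) P := hind.comp (fun _ => s) (fun _ => hs)
  have hv := visits (fun i ω => s (X i ω)) hYm hYind hlaw hM a haM
  set A : Set Ω := {ω | cst * M / 8 ≤ cnt (Aset (fun i ω => s (X i ω)) a) (M ^ 2) ω} with hA
  -- counting
  have hcnt : ∀ ω, cnt (Aset (fun i ω => s (X i ω)) a) (M ^ 2) ω
      = (Zc s a (M ^ 2) (fun l => X l ω) : ℝ) := by
    intro ω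
    unfold cnt Zc
    rw [Finset.card_filter]
    push_cast
    apply Finset.sum_congr rfl
    intro i _
    by_cases h : |pos s a (fun l => X l ω) i| ≤ 1 / 2
    · have h' : ω ∈ Aset (fun i ω => s (X i ω)) a i := h
      rw [indicator_of_mem h', if_pos h]
    · have h' : ω ∉ Aset (fun i ω => s (X i ω)) a i := h
      rw [indicator_of_notMem h', if_neg h]
  set Bad : ℤ → Set Ω := fun e => {ω | m ≤ Zc s a (M ^ 2) (fun l => X l ω) ∧
    Vc s G a (e / (2 * M)) (M ^ 2) (fun l => X l ω) ≤ 7} with hBad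
  have hBadp : ∀ e ∈ Finset.Icc (-(M : ℤ)) M, P.real (Bad e) ≤ 2 ^ 7 * (1 - pp / 2) ^ m := by
    intro e he
    rw [Finset.mem_Icc] at he
    have hδ : |(e : ℝ) / (2 * M)| ≤ 1 / 2 := by
      rw [abs_div, abs_of_pos (by linarith : (0 : ℝ) < 2 * M), div_le_div_iff₀ (by linarith)
        (by norm_num)]
      have h1 : |(e : ℝ)| ≤ M := by
        rw [abs_le]
        constructor
        · exact_mod_cast he.1
        · exact_mod_cast he.2
      linarith
    exact few_good X hX hind s hs G hG pp_pos pp_le_one hGp a _ hδ (M ^ 2) m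
  have hsub : A ⊆ T ∪ ⋃ e ∈ Finset.Icc (-(M : ℤ)) M, Bad e := by
    intro ω hω
    by_cases h : ω ∈ ⋃ e ∈ Finset.Icc (-(M : ℤ)) M, Bad e
    · exact Or.inr h
    · left
      intro e he
      have heI : e ∈ Finset.Icc (-(M : ℤ)) M := by
        rw [Finset.mem_Icc]; exact abs_le.mp he
      have hnb : ω ∉ Bad e := by
        intro hb
        exact h (mem_biUnion heI hb)
      have hZ : m ≤ Zc s a (M ^ 2) (fun l => X l ω) := by
        have h1 : cst * M / 8 ≤ (Zc s a (M ^ 2) (fun l => X l ω) : ℝ) := by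
          rw [← hcnt ω]; exact hω
        have h2 : (m : ℝ) ≤ (Zc s a (M ^ 2) (fun l => X l ω) : ℝ) := hm.trans h1
        exact_mod_cast h2
      have hV : 8 ≤ Vc s G a (e / (2 * M)) (M ^ 2) (fun l => X l ω) := by
        by_contra hc
        exact hnb ⟨hZ, by omega⟩
      obtain ⟨S, hS1, hS2⟩ := Finset.exists_subset_card_eq hV
      refine ⟨S, ?_, ?_⟩
      · rw [Finset.mem_powersetCard]
        exact ⟨fun i hi => (Finset.mem_filter.mp (hS1 hi)).1, hS2⟩
      · intro i hi
        exact (Finset.mem_filter.mp (hS1 hi)).2.2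
  have h1 : P.real A ≤ P.real T + ∑ e ∈ Finset.Icc (-(M : ℤ)) M, P.real (Bad e) := by
    calc P.real A ≤ P.real (T ∪ ⋃ e ∈ Finset.Icc (-(M : ℤ)) M, Bad e) := measureReal_mono hsub
      _ ≤ P.real T + P.real (⋃ e ∈ Finset.Icc (-(M : ℤ)) M, Bad e) := measureReal_union_le _ _
      _ ≤ P.real T + ∑ e ∈ Finset.Icc (-(M : ℤ)) M, P.real (Bad e) := by
          gcongr
          exact measureReal_biUnion_finset_le _ _
  have h2 : ∑ e ∈ Finset.Icc (-(M : ℤ)) M, P.real (Bad e)
      ≤ (2 * M + 1) * (2 ^ 7 * (1 - pp / 2) ^ m) := by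
    calc ∑ e ∈ Finset.Icc (-(M : ℤ)) M, P.real (Bad e)
        ≤ ∑ e ∈ Finset.Icc (-(M : ℤ)) M, (2 ^ 7 * (1 - pp / 2) ^ m : ℝ) :=
          Finset.sum_le_sum hBadp
      _ = (2 * M + 1) * (2 ^ 7 * (1 - pp / 2) ^ m) := by
          rw [Finset.sum_const, Int.card_Icc, nsmul_eq_mul]
          congr 1
          have : ((M : ℤ) + 1 - -(M : ℤ)).toNat = 2 * M + 1 := by omega
          rw [this]; push_cast; ring
  have hpp : pp = cst / 96 := rfl
  rw [hpp]
  have h3 : cst / 48 = cst / 96 + cst / 96 := by ring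
  linarith

end Step

section Curry

variable {Ω : Type*} [MeasurableSpace Ω] {P : Measure Ω} [IsProbabilityMeasure P]

theorem iIndepFun_curry {ι κ : Type*} {ζ : ι × κ → Ω → ℝ} (hm : ∀ p, Measurable (ζ p))
    (h : iIndepFun ζ P) : iIndepFun (fun i ω (j : κ) => ζ (i, j) ω) P := by
  have hpm : ∀ i j, IsProbabilityMeasure (P.map (ζ (i, j))) :=
    fun i j => Measure.isProbabilityMeasure_map (hm _).aemeasurable
  have h1 := (iIndepFun_iff_map_fun_eq_infinitePi_map (P := P) hm).1 h
  have h2 := Measure.infinitePi_map_curry (fun i j => P.map (ζ (i, j)))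
  have hmi : ∀ i, Measurable (fun ω (j : κ) => ζ (i, j) ω) :=
    fun i => measurable_pi_lambda _ (fun j => hm (i, j))
  rw [iIndepFun_iff_map_fun_eq_infinitePi_map (P := P) hmi]
  have h3 : (fun ω i (j : κ) => ζ (i, j) ω)
      = (MeasurableEquiv.curry ι κ ℝ) ∘ (fun ω p => ζ p ω) := by
    ext ω i j; rfl
  rw [h3, ← Measure.map_map (MeasurableEquiv.measurable _) (measurable_pi_lambda _ hm), h1, h2]
  congr 1
  ext1 i
  have h4 : iIndepFun (fun j : κ => ζ (i, j)) P :=
    h.precomp (g := fun j : κ => (i, j)) (fun a b hab => by simpa using hab)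
  exact ((iIndepFun_iff_map_fun_eq_infinitePi_map (P := P) (fun j => hm (i, j))).1 h4).symm

/-- Blocks of length `K` of an independent sequence are independent. -/
theorem block_indep {ξ : ℕ → Ω → ℝ} (hξ : ∀ j, Measurable (ξ j)) (h : iIndepFun ξ P) {K : ℕ} :
    iIndepFun (fun (i : ℕ) ω (j : ℕ) => if j < K then ξ (i * K + j) ω else 0) P := by
  have hinj : Function.Injective (fun p : ℕ × Fin K => p.1 * K + p.2) := by
    rintro ⟨i, j⟩ ⟨i', j'⟩ hij
    simp only at hij
    have hj := j.isLt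
    have hj' := j'.isLt
    have hK : 0 < K := by omega
    have h1 : (i * K + j) / K = i := by
      rw [Nat.add_comm, Nat.add_mul_div_right _ _ hK, Nat.div_eq_of_lt hj]; simp
    have h2 : (i' * K + j') / K = i' := by
      rw [Nat.add_comm, Nat.add_mul_div_right _ _ hK, Nat.div_eq_of_lt hj']; simp
    have h3 : i = i' := by rw [← h1, ← h2, hij]
    subst h3
    have h4 : (j : ℕ) = j' := by omega
    rw [Prod.mk.injEq]
    exact ⟨rfl, Fin.ext h4⟩
  have h1 : iIndepFun (fun p : ℕ × Fin K => ξ (p.1 * K + p.2)) P := h.precomp hinj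
  have h2 := iIndepFun_curry (fun p => hξ _) h1
  have h3 := h2.comp (fun _ => fun (v : Fin K → ℝ) (j : ℕ) => if hj : j < K then v ⟨j, hj⟩ else 0)
    (by
      intro i
      apply measurable_pi_lambda
      intro j
      by_cases hj : j < K
      · simp only [hj, dif_pos]; exact measurable_pi_apply _
      · simp only [hj, dif_neg, not_false_eq_true]; exact measurable_const)
  convert h3 using 1
  ext i ω j
  simp only [Function.comp]
  by_cases hj : j < K
  · simp [hj]
  · simp [hj]

end Curry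

section Gd

/-- The recursive goodness predicate: `x` is the normalised starting offset and `u` the
normalised increments (`(M^2)^d` of them). -/
def Gd (M : ℕ) : ℕ → ℝ → (ℕ → ℝ) → Prop
  | 0, x, _ => |x| ≤ 1
  | d + 1, x, u => |x| ≤ 1 ∧ ∀ e : ℤ, |e| ≤ M →
      ∃ S ∈ (Finset.range (M ^ 2)).powersetCard 8, ∀ i ∈ S,
        Gd M d (M * x + (∑ j ∈ Finset.range (i * (M ^ 2) ^ d), u j) / (M : ℝ) ^ d - e / (2 * M))
          (fun j => u (i * (M ^ 2) ^ d + j))

theorem Gd_abs {M d : ℕ} {x : ℝ} {u : ℕ → ℝ} (h : Gd M d x u) : |x| ≤ 1 := by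
  cases d with
  | zero => exact h
  | succ d => exact h.1

theorem Gd_congr (M : ℕ) : ∀ (d : ℕ) (x : ℝ) (u v : ℕ → ℝ), (∀ j < (M ^ 2) ^ d, u j = v j) →
    (Gd M d x u ↔ Gd M d x v) := by
  have key : ∀ (d : ℕ) (x : ℝ) (u v : ℕ → ℝ), (∀ j < (M ^ 2) ^ d, u j = v j) →
      Gd M d x u → Gd M d x v := by
    intro d
    induction d with
    | zero => intro x u v _ h; exact h
    | succ d ih =>
      intro x u v huv h
      refine ⟨h.1, fun e he => ?_⟩
      obtain ⟨S, hS, h2⟩ := h.2 e he
      refine ⟨S, hS, fun i hi => ?_⟩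
      have hi' : i < M ^ 2 := Finset.mem_range.mp ((Finset.mem_powersetCard.mp hS).1 hi)
      have hb : i * (M ^ 2) ^ d + (M ^ 2) ^ d ≤ (M ^ 2) ^ (d + 1) := by
        have : (i + 1) * (M ^ 2) ^ d ≤ M ^ 2 * (M ^ 2) ^ d := Nat.mul_le_mul_right _ hi'
        calc i * (M ^ 2) ^ d + (M ^ 2) ^ d = (i + 1) * (M ^ 2) ^ d := by ring
          _ ≤ M ^ 2 * (M ^ 2) ^ d := this
          _ = (M ^ 2) ^ (d + 1) := by ring
      have h3 := h2 i hi
      have e1 : ∑ j ∈ Finset.range (i * (M ^ 2) ^ d), u j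
          = ∑ j ∈ Finset.range (i * (M ^ 2) ^ d), v j := by
        apply Finset.sum_congr rfl
        intro j hj
        apply huv
        have := Finset.mem_range.mp hj
        omega
      rw [← e1]
      apply ih _ _ _ _ h3
      intro j hj
      apply huv
      omega
  intro d x u v huv
  exact ⟨key d x u v huv, key d x v u (fun j hj => (huv j hj).symm)⟩

theorem Gd_meas (M d : ℕ) : MeasurableSet {z : ℝ × (ℕ → ℝ) | Gd M d z.1 z.2} := by
  induction d with
  | zero =>
    have h1 : Measurable (fun z : ℝ × (ℕ → ℝ) => |z.1|) := by fun_prop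
    exact measurableSet_le h1 measurable_const
  | succ d ih =>
    have e : {z : ℝ × (ℕ → ℝ) | Gd M (d + 1) z.1 z.2}
        = {z : ℝ × (ℕ → ℝ) | |z.1| ≤ 1} ∩ ⋂ e : ℤ, ⋂ (_ : |e| ≤ (M : ℤ)),
          ⋃ S ∈ (Finset.range (M ^ 2)).powersetCard 8, ⋂ i ∈ S,
          (fun z : ℝ × (ℕ → ℝ) => ((M * z.1 + (∑ j ∈ Finset.range (i * (M ^ 2) ^ d), z.2 j) / (M : ℝ) ^ d
            - e / (2 * M) : ℝ), (fun j => z.2 (i * (M ^ 2) ^ d + j)))) ⁻¹'
            {z : ℝ × (ℕ → ℝ) | Gd M d z.1 z.2} := by
      ext z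
      simp only [mem_inter_iff, mem_ofPred_eq, mem_iInter, mem_iUnion, mem_preimage, exists_prop]
      rfl
    rw [e]
    apply MeasurableSet.inter
    · have h1 : Measurable (fun z : ℝ × (ℕ → ℝ) => |z.1|) := by fun_prop
      exact measurableSet_le h1 measurable_const
    · apply MeasurableSet.iInter; intro e
      apply MeasurableSet.iInter; intro he
      apply Finset.measurableSet_biUnion; intro S hS
      apply Finset.measurableSet_biInter; intro i hi
      apply measurableSet_preimage _ ih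
      apply Measurable.prodMk
      · have h2 : Measurable (fun z : ℝ × (ℕ → ℝ) => ∑ j ∈ Finset.range (i * (M ^ 2) ^ d), z.2 j) :=
          Finset.measurable_fun_sum _ (fun j _ => (measurable_pi_apply j).comp measurable_snd)
        fun_prop
      · apply measurable_pi_lambda
        intro j
        exact (measurable_pi_apply _).comp measurable_snd

theorem sum_range_mul (f : ℕ → ℝ) (K i : ℕ) :
    ∑ j ∈ Finset.range (i * K), f j = ∑ l ∈ Finset.range i, ∑ j ∈ Finset.range K, f (l * K + j) := by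
  induction i with
  | zero => simp
  | succ i ih =>
    rw [Nat.succ_mul, Finset.sum_range_add, ih, Finset.sum_range_succ]

theorem Gd_prob {M m : ℕ} (hM : 4 ≤ M) (hm : (m : ℝ) ≤ cst * M / 8)
    (hbig : (2 * M + 1) * (2 ^ 7 * (1 - pp / 2) ^ m) ≤ cst / 96) (d : ℕ) :
    ∀ {Ω : Type} [MeasurableSpace Ω] (P : Measure Ω) [IsProbabilityMeasure P]
      (ξ : ℕ → Ω → ℝ), (∀ j, Measurable (ξ j)) → iIndepFun ξ P →
      (∀ j, P.map (ξ j) = gaussianReal 0 1) → ∀ x : ℝ, |x| ≤ 1 →
      pp ≤ P.real {ω | Gd M d x (fun j => ξ j ω)} := by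
  induction d with
  | zero =>
    intro Ω _ P _ ξ _ _ _ x hx
    have : {ω : Ω | Gd M 0 x (fun j => ξ j ω)} = univ := by
      ext ω; simp [Gd, hx]
    rw [this, probReal_univ]
    exact pp_le_one
  | succ d ih =>
    intro Ω _ P _ ξ hξ hind hlaw x hx
    have hMR : (4 : ℝ) ≤ M := by exact_mod_cast hM
    have hM0 : (M : ℝ) ≠ 0 := by positivity
    set K := (M ^ 2) ^ d with hK
    set X : ℕ → Ω → (ℕ → ℝ) := fun i ω j => if j < K then ξ (i * K + j) ω else 0 with hXdef
    have hXm : ∀ i, Measurable (X i) := by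
      intro i
      apply measurable_pi_lambda
      intro j
      by_cases hj : j < K
      · simp only [hXdef, hj, if_true]; exact hξ _
      · simp only [hXdef, hj, if_false]; exact measurable_const
    have hXind : iIndepFun X P := block_indep hξ hind
    set s : (ℕ → ℝ) → ℝ := fun u => (∑ j ∈ Finset.range K, u j) / (M : ℝ) ^ d with hs
    have hsm : Measurable s := by
      have h2 : Measurable (fun u : ℕ → ℝ => ∑ j ∈ Finset.range K, u j) :=
        Finset.measurable_fun_sum _ (fun j _ => measurable_pi_apply j)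
      exact h2.div_const _
    have hsX : ∀ i ω, s (X i ω) = (∑ j ∈ Finset.range K, ξ (i * K + j) ω) / (M : ℝ) ^ d := by
      intro i ω
      simp only [hs, hXdef]
      congr 1
      apply Finset.sum_congr rfl
      intro j hj
      rw [if_pos (Finset.mem_range.mp hj)]
    have hshift : ∀ i, iIndepFun (fun j => ξ (i * K + j)) P := fun i =>
      hind.precomp (g := fun j => i * K + j) (fun a b hab => by simpa using hab)
    have hslaw : ∀ i, P.map (fun ω => s (X i ω)) = gaussianReal 0 1 := by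
      intro i
      have h1 := law_sum (P := P) (fun j => ξ (i * K + j)) (fun j => hξ _) (hshift i)
        (fun j => hlaw _) (Finset.range K)
      rw [Finset.card_range] at h1
      have h2 : (fun ω => s (X i ω)) = (fun y => y / (M : ℝ) ^ d) ∘
          (fun ω => ∑ j ∈ Finset.range K, ξ (i * K + j) ω) := by
        ext ω
        exact hsX i ω
      rw [h2, ← Measure.map_map (by fun_prop) (Finset.measurable_fun_sum _ (fun j _ => hξ _)), h1,
        gaussianReal_map_div_const]
      congr 1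
      · simp
      · apply NNReal.coe_injective
        push_cast
        rw [hK]
        push_cast
        rw [← pow_mul, ← pow_mul, mul_comm 2 d]
        exact div_self (by positivity)
    have hGp : ∀ i x, |x| ≤ 1 → pp ≤ P.real {ω | Gd M d x (X i ω)} := by
      intro i x hx
      have h1 := ih P (fun j => ξ (i * K + j)) (fun j => hξ _) (hshift i) (fun j => hlaw _) x hx
      have h2 : {ω | Gd M d x (X i ω)} = {ω | Gd M d x (fun j => ξ (i * K + j) ω)} := by
        ext ω
        apply Gd_congr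
        intro j hj
        simp only [hXdef]
        rw [if_pos hj]
      rw [h2]; exact h1
    have hst := step X hXm hXind s hsm hslaw (fun x u => Gd M d x u) (Gd_meas M d) hM hm hbig hGp x hx
    refine hst.trans (le_of_eq ?_)
    congr 1
    ext ω
    constructor
    · intro h
      refine ⟨hx, fun e he => ?_⟩
      obtain ⟨S, hS, h2⟩ := h e he
      refine ⟨S, hS, fun i hi => ?_⟩
      have h3 := h2 i hi
      have e1 : (∑ l ∈ Finset.range i, s (X l ω))
          = (∑ j ∈ Finset.range (i * (M ^ 2) ^ d), ξ j ω) / (M : ℝ) ^ d := by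
        rw [sum_range_mul (fun j => ξ j ω) K i, Finset.sum_div]
        apply Finset.sum_congr rfl
        intro l _
        exact hsX l ω
      rw [e1] at h3
      refine (Gd_congr M d _ _ _ ?_).mp h3
      intro j hj
      simp only [hXdef]
      rw [if_pos hj]
    · rintro ⟨_, h⟩ e he
      obtain ⟨S, hS, h2⟩ := h e he
      refine ⟨S, hS, fun i hi => ?_⟩
      have h3 := h2 i hi
      have e1 : (∑ l ∈ Finset.range i, s (X l ω))
          = (∑ j ∈ Finset.range (i * (M ^ 2) ^ d), ξ j ω) / (M : ℝ) ^ d := by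
        rw [sum_range_mul (fun j => ξ j ω) K i, Finset.sum_div]
        apply Finset.sum_congr rfl
        intro l _
        exact hsX l ω
      rw [e1]
      refine (Gd_congr M d _ _ _ ?_).mpr h3
      intro j hj
      simp only [hXdef]
      rw [if_pos hj]

end Gd

end Pool.Agent.BG.H85
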