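import Mathlib
import Pool.Agent.Lib.MP_f76209_pr_helper85.Recur

/-! Part P of MP_f76209_pr: path level and conclusion. -/

open MeasureTheory ProbabilityTheory Set
open scoped NNReal ENNReal
set_option autoImplicit false

namespace Pool.Agent.BG.H85

/-- Same as `Pool.Agent.BG.GoodTree`. -/
def GoodTree (b : ℝ → ℝ) (t₀ τ₀ r₀ : ℝ) (M : ℕ) : Prop :=
  ∃ G : ℕ → ℕ → ℤ → Prop, G 0 0 0 ∧
    (∀ n j k, G n j k →
      |b (t₀ + j * (τ₀ / (M : ℝ) ^ (2 * n))) - b t₀ - k * (r₀ / (M : ℝ) ^ n)|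
        ≤ Real.sqrt τ₀ / (M : ℝ) ^ n) ∧
    (∀ n j k, G n j k → ∀ l : ℤ, |l - M * k| ≤ M →
      ∃ S : Finset ℕ, S.card = 8 ∧ (∀ i ∈ S, i < M ^ 2) ∧ ∀ i ∈ S, G (n + 1) (M ^ 2 * j + i) l)

section Det

variable (M : ℕ) (b : ℝ → ℝ)

/-- Path-level goodness. -/
def Pd (d : ℕ) (t τ y : ℝ) : Prop :=
  Gd M d ((b t - y) / Real.sqrt τ) (fun j => (b (t + ((j : ℝ) + 1) * (τ / ((M : ℝ) ^ 2) ^ d))
    - b (t + (j : ℝ) * (τ / ((M : ℝ) ^ 2) ^ d))) / Real.sqrt (τ / ((M : ℝ) ^ 2) ^ d))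

variable {M}

theorem Pd_succ_iff (hM : 1 ≤ M) (d : ℕ) {t τ y : ℝ} (hτ : 0 < τ) :
    Pd M b (d + 1) t τ y ↔ |(b t - y) / Real.sqrt τ| ≤ 1 ∧ ∀ e : ℤ, |e| ≤ M →
      ∃ S ∈ (Finset.range (M ^ 2)).powersetCard 8, ∀ i ∈ S,
        Pd M b d (t + (i : ℝ) * (τ / (M : ℝ) ^ 2)) (τ / (M : ℝ) ^ 2)
          (y + (e : ℝ) / (2 * M) * (Real.sqrt τ / M)) := by
  have hMR : (0 : ℝ) < M := by exact_mod_cast hM
  have hsτ : 0 < Real.sqrt τ := Real.sqrt_pos.mpr hτ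
  set h := τ / ((M : ℝ) ^ 2) ^ (d + 1) with hh
  have hh0 : 0 < h := by positivity
  have hsqrt : Real.sqrt h = Real.sqrt τ / (M : ℝ) ^ (d + 1) := by
    rw [hh, Real.sqrt_div' _ (by positivity)]
    congr 1
    rw [← pow_mul, mul_comm 2 (d + 1), pow_mul]
    exact Real.sqrt_sq (by positivity)
  have hh' : τ / (M : ℝ) ^ 2 / ((M : ℝ) ^ 2) ^ d = h := by
    rw [hh, div_div, pow_succ ((M : ℝ) ^ 2) d, mul_comm ((M : ℝ) ^ 2)]
  have hsq2 : Real.sqrt (τ / (M : ℝ) ^ 2) = Real.sqrt τ / M := by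
    rw [Real.sqrt_div' _ (by positivity), Real.sqrt_sq hMR.le]
  have key : ∀ (e : ℤ) (i : ℕ),
      (Gd M d (M * ((b t - y) / Real.sqrt τ) + (∑ j ∈ Finset.range (i * (M ^ 2) ^ d),
          (b (t + ((j : ℝ) + 1) * h) - b (t + (j : ℝ) * h)) / Real.sqrt h) / (M : ℝ) ^ d - e / (2 * M))
        (fun j => (b (t + (((i * (M ^ 2) ^ d + j : ℕ) : ℝ) + 1) * h)
          - b (t + ((i * (M ^ 2) ^ d + j : ℕ) : ℝ) * h)) / Real.sqrt h)
      ↔ Pd M b d (t + (i : ℝ) * (τ / (M : ℝ) ^ 2)) (τ / (M : ℝ) ^ 2)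
          (y + (e : ℝ) / (2 * M) * (Real.sqrt τ / M))) := by
    intro e i
    unfold Pd
    rw [hh']
    have hnh : ((i * (M ^ 2) ^ d : ℕ) : ℝ) * h = (i : ℝ) * (τ / (M : ℝ) ^ 2) := by
      rw [hh]
      push_cast
      rw [pow_succ ((M : ℝ) ^ 2) d]
      field_simp
    have e1 : (∑ j ∈ Finset.range (i * (M ^ 2) ^ d),
          (b (t + ((j : ℝ) + 1) * h) - b (t + (j : ℝ) * h)) / Real.sqrt h)
        = (b (t + (i : ℝ) * (τ / (M : ℝ) ^ 2)) - b t) / Real.sqrt h := by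
      rw [← Finset.sum_div]
      congr 1
      have h1 := Finset.sum_range_sub (fun j : ℕ => b (t + (j : ℝ) * h)) (i * (M ^ 2) ^ d)
      simp only [Nat.cast_add, Nat.cast_one, Nat.cast_zero, zero_mul, add_zero] at h1
      rw [h1, hnh]
    have e2 : (M * ((b t - y) / Real.sqrt τ) + (∑ j ∈ Finset.range (i * (M ^ 2) ^ d),
          (b (t + ((j : ℝ) + 1) * h) - b (t + (j : ℝ) * h)) / Real.sqrt h) / (M : ℝ) ^ d - e / (2 * M))
        = (b (t + (i : ℝ) * (τ / (M : ℝ) ^ 2)) - (y + (e : ℝ) / (2 * M) * (Real.sqrt τ / M)))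
          / Real.sqrt (τ / (M : ℝ) ^ 2) := by
      rw [e1, hsqrt, hsq2, pow_succ]
      field_simp
      ring
    have e3 : (fun j : ℕ => (b (t + (((i * (M ^ 2) ^ d + j : ℕ) : ℝ) + 1) * h)
          - b (t + ((i * (M ^ 2) ^ d + j : ℕ) : ℝ) * h)) / Real.sqrt h)
        = (fun j : ℕ => (b (t + (i : ℝ) * (τ / (M : ℝ) ^ 2) + ((j : ℝ) + 1) * h)
          - b (t + (i : ℝ) * (τ / (M : ℝ) ^ 2) + (j : ℝ) * h)) / Real.sqrt h) := by
      ext j
      have a1 : t + (((i * (M ^ 2) ^ d + j : ℕ) : ℝ) + 1) * h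
          = t + (i : ℝ) * (τ / (M : ℝ) ^ 2) + ((j : ℝ) + 1) * h := by
        rw [← hnh]; push_cast; ring
      have a2 : t + ((i * (M ^ 2) ^ d + j : ℕ) : ℝ) * h
          = t + (i : ℝ) * (τ / (M : ℝ) ^ 2) + (j : ℝ) * h := by
        rw [← hnh]; push_cast; ring
      rw [a1, a2]
    rw [e2, e3]
  constructor
  · intro hP
    refine ⟨hP.1, fun e he => ?_⟩
    obtain ⟨S, hS, h2⟩ := hP.2 e he
    exact ⟨S, hS, fun i hi => (key e i).mp (h2 i hi)⟩
  · rintro ⟨h1, h2⟩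
    refine ⟨h1, fun e he => ?_⟩
    obtain ⟨S, hS, h3⟩ := h2 e he
    exact ⟨S, hS, fun i hi => (key e i).mpr (h3 i hi)⟩

theorem Pd_anti (hM : 1 ≤ M) (d : ℕ) : ∀ {t τ y : ℝ}, 0 < τ → Pd M b (d + 1) t τ y →
    Pd M b d t τ y := by
  have hMR : (0 : ℝ) < M := by exact_mod_cast hM
  induction d with
  | zero =>
    intro t τ y _ h
    exact h.1
  | succ d ih =>
    intro t τ y hτ h
    rw [Pd_succ_iff b hM _ hτ] at h ⊢
    refine ⟨h.1, fun e he => ?_⟩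
    obtain ⟨S, hS, h2⟩ := h.2 e he
    exact ⟨S, hS, fun i hi => ih (by positivity) (h2 i hi)⟩

/-- Pigeonhole for antitone families. -/
theorem exists_forall_of_anti {α : Type*} (F : Finset α) (Q : ℕ → α → Prop)
    (hanti : ∀ d a, Q (d + 1) a → Q d a) (h : ∀ d, ∃ a ∈ F, Q d a) : ∃ a ∈ F, ∀ d, Q d a := by
  have hle : ∀ d k a, Q (d + k) a → Q d a := by
    intro d k
    induction k with
    | zero => intro a h; exact h
    | succ k ih => intro a h; exact ih a (hanti _ _ h)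
  by_contra hc
  push Not at hc
  choose! f hf using hc
  obtain ⟨a, ha, hQ⟩ := h (F.sup f)
  have h1 : f a ≤ F.sup f := Finset.le_sup ha
  obtain ⟨k, hk⟩ := Nat.exists_eq_add_of_le h1
  rw [hk] at hQ
  exact hf a ha (hle _ _ _ hQ)

theorem goodTree_of_Pd (hM : 1 ≤ M) {t₀ τ₀ : ℝ} (hτ : 0 < τ₀)
    (h : ∀ d, Pd M b d t₀ τ₀ (b t₀)) :
    GoodTree b t₀ τ₀ (1 / (2 * M) * Real.sqrt τ₀) M := by
  have hMR : (0 : ℝ) < M := by exact_mod_cast hM
  have hsqrt : ∀ n : ℕ, Real.sqrt (τ₀ / (M : ℝ) ^ (2 * n)) = Real.sqrt τ₀ / (M : ℝ) ^ n := by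
    intro n
    rw [Real.sqrt_div' _ (by positivity), mul_comm 2 n, pow_mul, Real.sqrt_sq (by positivity)]
  refine ⟨fun n j k => ∀ d, Pd M b d (t₀ + j * (τ₀ / (M : ℝ) ^ (2 * n))) (τ₀ / (M : ℝ) ^ (2 * n))
    (b t₀ + k * (1 / (2 * M) * Real.sqrt τ₀ / (M : ℝ) ^ n)), ?_, ?_, ?_⟩
  · intro d
    simpa using h d
  · intro n j k hG
    have h1 := hG 0
    have h2 : |(b (t₀ + j * (τ₀ / (M : ℝ) ^ (2 * n)))
        - (b t₀ + k * (1 / (2 * M) * Real.sqrt τ₀ / (M : ℝ) ^ n)))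
        / Real.sqrt (τ₀ / (M : ℝ) ^ (2 * n))| ≤ 1 := h1
    have hpos : 0 < Real.sqrt (τ₀ / (M : ℝ) ^ (2 * n)) := Real.sqrt_pos.mpr (by positivity)
    rw [abs_div, abs_of_pos hpos, div_le_one hpos, hsqrt] at h2
    rwa [sub_sub]
  · intro n j k hG l hl
    set τ := τ₀ / (M : ℝ) ^ (2 * n) with hτdef
    have hτpos : 0 < τ := by positivity
    set y := b t₀ + k * (1 / (2 * M) * Real.sqrt τ₀ / (M : ℝ) ^ n) with hy
    set t := t₀ + j * τ with ht
    have hkey : ∀ d, ∃ S ∈ (Finset.range (M ^ 2)).powersetCard 8, ∀ i ∈ S,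
        Pd M b d (t + (i : ℝ) * (τ / (M : ℝ) ^ 2)) (τ / (M : ℝ) ^ 2)
          (y + ((l - M * k : ℤ) : ℝ) / (2 * M) * (Real.sqrt τ / M)) := by
      intro d
      have h1 := (Pd_succ_iff b hM d hτpos).mp (hG (d + 1))
      exact h1.2 (l - M * k) hl
    obtain ⟨S, hS, hall⟩ := exists_forall_of_anti _ (fun d (S : Finset ℕ) => ∀ i ∈ S,
        Pd M b d (t + (i : ℝ) * (τ / (M : ℝ) ^ 2)) (τ / (M : ℝ) ^ 2)
          (y + ((l - M * k : ℤ) : ℝ) / (2 * M) * (Real.sqrt τ / M)))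
        (fun d S hQ i hi => Pd_anti b hM d (by positivity) (hQ i hi)) hkey
    rw [Finset.mem_powersetCard] at hS
    refine ⟨S, hS.2, fun i hi => Finset.mem_range.mp (hS.1 hi), fun i hi d => ?_⟩
    have h1 := hall d i hi
    have eτ : τ / (M : ℝ) ^ 2 = τ₀ / (M : ℝ) ^ (2 * (n + 1)) := by
      rw [hτdef, div_div, ← pow_add]; congr 2
    have et : t + (i : ℝ) * (τ / (M : ℝ) ^ 2)
        = t₀ + ((M ^ 2 * j + i : ℕ) : ℝ) * (τ₀ / (M : ℝ) ^ (2 * (n + 1))) := by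
      rw [← eτ, ht]
      push_cast
      field_simp
      ring
    have ey : y + ((l - M * k : ℤ) : ℝ) / (2 * M) * (Real.sqrt τ / M)
        = b t₀ + l * (1 / (2 * M) * Real.sqrt τ₀ / (M : ℝ) ^ (n + 1)) := by
      rw [hy, hτdef, hsqrt]
      push_cast
      rw [pow_succ]
      field_simp
      ring
    rw [et, ey, eτ] at h1
    exact h1

end Det

section Const

theorem exists_M : ∃ (M m : ℕ), 4 ≤ M ∧ (m : ℝ) ≤ cst * M / 8 ∧
    (2 * M + 1) * (2 ^ 7 * (1 - pp / 2) ^ m) ≤ cst / 96 := by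
  have hc := cst_pos
  have hp := pp_pos
  have hp1 := pp_le_one
  have hr0 : 0 ≤ 1 - pp / 2 := by linarith
  have hr1 : 1 - pp / 2 < 1 := by linarith
  have h1 := tendsto_self_mul_const_pow_of_lt_one hr0 hr1
  have h2 := tendsto_pow_atTop_nhds_zero_of_lt_one hr0 hr1
  have h3 : Filter.Tendsto (fun m : ℕ => (16 / cst * 2 ^ 7) * ((m : ℝ) * (1 - pp / 2) ^ m)
      + (11 * 2 ^ 7) * (1 - pp / 2) ^ m) Filter.atTop (nhds ((16 / cst * 2 ^ 7) * 0 + (11 * 2 ^ 7) * 0)) :=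
    (h1.const_mul _).add (h2.const_mul _)
  have h4 : (16 / cst * 2 ^ 7) * 0 + (11 * 2 ^ 7) * 0 < cst / 96 := by
    simp; positivity
  obtain ⟨m, hm⟩ := (h3.eventually (gt_mem_nhds h4)).exists
  refine ⟨⌈8 * m / cst⌉₊ + 4, m, by omega, ?_, ?_⟩
  · have h5 := Nat.le_ceil (8 * (m : ℝ) / cst)
    rw [div_le_iff₀ hc] at h5
    push_cast
    nlinarith
  · have h5 : ((⌈8 * (m : ℝ) / cst⌉₊ : ℕ) : ℝ) < 8 * (m : ℝ) / cst + 1 :=
      Nat.ceil_lt_add_one (by positivity)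
    have h6 : 0 ≤ (2 : ℝ) ^ 7 * (1 - pp / 2) ^ m := by positivity
    calc (2 * ((⌈8 * (m : ℝ) / cst⌉₊ + 4 : ℕ) : ℝ) + 1) * (2 ^ 7 * (1 - pp / 2) ^ m)
        ≤ (16 / cst * m + 11) * (2 ^ 7 * (1 - pp / 2) ^ m) := by
          apply mul_le_mul_of_nonneg_right _ h6
          push_cast
          have : 16 / cst * (m : ℝ) = 2 * (8 * (m : ℝ) / cst) := by ring
          rw [this]
          linarith
      _ = (16 / cst * 2 ^ 7) * ((m : ℝ) * (1 - pp / 2) ^ m) + (11 * 2 ^ 7) * (1 - pp / 2) ^ m := by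
          ring
      _ ≤ cst / 96 := hm.le

end Const

section Prob

theorem root_prob {M m : ℕ} (hM : 4 ≤ M) (hm : (m : ℝ) ≤ cst * M / 8)
    (hbig : (2 * M + 1) * (2 ^ 7 * (1 - pp / 2) ^ m) ≤ cst / 96) (d Q : ℕ)
    {Ω : Type} [MeasurableSpace Ω] (P : Measure Ω) [IsProbabilityMeasure P]
    (ξ : ℕ → Ω → ℝ) (hξ : ∀ j, Measurable (ξ j)) (hind : iIndepFun ξ P)
    (hlaw : ∀ j, P.map (ξ j) = gaussianReal 0 1) :
    P {ω | ∀ q < Q, ¬ Gd M d 0 (fun j => ξ (q * (M ^ 2) ^ d + j) ω)}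
      ≤ ENNReal.ofReal ((1 - pp) ^ Q) := by
  set K := (M ^ 2) ^ d with hK
  have hB := block_indep (P := P) hξ hind (K := K)
  set X : ℕ → Ω → (ℕ → ℝ) := fun i ω j => if j < K then ξ (i * K + j) ω else 0 with hX
  have hXm : ∀ i, Measurable (X i) := by
    intro i
    apply measurable_pi_lambda
    intro j
    by_cases hj : j < K
    · simp only [hX, hj, if_true]; exact hξ _
    · simp only [hX, hj, if_false]; exact measurable_const
  have hGm : MeasurableSet {v : ℕ → ℝ | ¬ Gd M d 0 v} := by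
    have h1 : Measurable (fun v : ℕ → ℝ => ((0 : ℝ), v)) := by fun_prop
    exact (h1 (Gd_meas M d)).compl
  have hset : {ω | ∀ q < Q, ¬ Gd M d 0 (fun j => ξ (q * K + j) ω)}
      = ⋂ q ∈ Finset.range Q, (X q) ⁻¹' {v : ℕ → ℝ | ¬ Gd M d 0 v} := by
    ext ω
    simp only [mem_ofPred_eq, Finset.mem_range, mem_iInter, mem_preimage]
    constructor
    · intro h q hq hc
      apply h q hq
      refine (Gd_congr M d _ _ _ ?_).mp hc
      intro j hj
      simp only [hX]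
      rw [if_pos hj]
    · intro h q hq hc
      apply h q hq
      refine (Gd_congr M d _ _ _ ?_).mpr hc
      intro j hj
      simp only [hX]
      rw [if_pos hj]
  rw [hset]
  have h1 := (iIndepFun_iff_measure_inter_preimage_eq_mul.mp hB) (Finset.range Q)
    (sets := fun _ => {v : ℕ → ℝ | ¬ Gd M d 0 v}) (fun _ _ => hGm)
  rw [h1]
  have h2 : ∀ q ∈ Finset.range Q, P (X q ⁻¹' {v : ℕ → ℝ | ¬ Gd M d 0 v})
      ≤ ENNReal.ofReal (1 - pp) := by
    intro q _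
    have hsh : iIndepFun (fun j => ξ (q * K + j)) P :=
      hind.precomp (g := fun j => q * K + j) (fun a b hab => by simpa using hab)
    have h3 := Gd_prob hM hm hbig d P (fun j => ξ (q * K + j)) (fun j => hξ _) hsh
      (fun j => hlaw _) 0 (by simp)
    have h4 : (X q ⁻¹' {v : ℕ → ℝ | ¬ Gd M d 0 v})
        = {ω | Gd M d 0 (fun j => ξ (q * K + j) ω)}ᶜ := by
      ext ω
      simp only [mem_preimage, mem_ofPred_eq, mem_compl_iff]
      rw [not_iff_not]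
      apply Gd_congr
      intro j hj
      simp only [hX]
      rw [if_pos hj]
    have hmm : MeasurableSet {ω | Gd M d 0 (fun j => ξ (q * K + j) ω)} := by
      have h5 : Measurable (fun ω => ((0 : ℝ), fun j => ξ (q * K + j) ω)) :=
        measurable_const.prodMk (measurable_pi_lambda _ (fun j => hξ _))
      exact h5 (Gd_meas M d)
    rw [h4, ← ENNReal.ofReal_toReal (measure_ne_top P _)]
    apply ENNReal.ofReal_le_ofReal
    have h6 : (P {ω | Gd M d 0 (fun j => ξ (q * K + j) ω)}ᶜ).toReal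
        = 1 - P.real {ω | Gd M d 0 (fun j => ξ (q * K + j) ω)} := by
      rw [← measureReal_def, probReal_compl_eq_one_sub hmm]
    rw [h6]
    linarith
  calc ∏ q ∈ Finset.range Q, P (X q ⁻¹' {v : ℕ → ℝ | ¬ Gd M d 0 v})
      ≤ ∏ q ∈ Finset.range Q, ENNReal.ofReal (1 - pp) := Finset.prod_le_prod' h2
    _ = ENNReal.ofReal ((1 - pp) ^ Q) := by
        rw [Finset.prod_const, Finset.card_range, ENNReal.ofReal_pow]
        have := pp_le_one
        linarith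

variable {Ω : Type} [MeasurableSpace Ω] {P : Measure Ω} [IsProbabilityMeasure P]
  {B : ℝ → Ω → ℝ}
  (hlaw : ∀ s t : ℝ, 0 ≤ s → s ≤ t →
        P.map (fun ω => B t ω - B s ω) = gaussianReal 0 (Real.toNNReal (t - s)))
  (hind : ∀ (n : ℕ) (τ : ℕ → ℝ), Monotone τ → 0 ≤ τ 0 →
        iIndepFun (fun (i : Fin n) (ω : Ω) => B (τ (i.val + 1)) ω - B (τ i.val) ω) P)

omit [IsProbabilityMeasure P] in
include hlaw hind in
theorem exists_iid {h : ℝ} (hh : 0 < h) : ∃ ξ : ℕ → Ω → ℝ, (∀ j, Measurable (ξ j)) ∧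
    iIndepFun ξ P ∧ (∀ j, P.map (ξ j) = gaussianReal 0 1) ∧
    ∀ j : ℕ, (fun ω => (B (((j : ℝ) + 1) * h) ω - B ((j : ℝ) * h) ω) / Real.sqrt h) =ᵐ[P] ξ j := by
  set f : ℕ → Ω → ℝ := fun j ω => (B (((j : ℝ) + 1) * h) ω - B ((j : ℝ) * h) ω) / Real.sqrt h with hf
  have hsq : 0 < Real.sqrt h := Real.sqrt_pos.mpr hh
  have hg : ∀ j : ℕ, P.map (fun ω => B (((j : ℝ) + 1) * h) ω - B ((j : ℝ) * h) ω)
      = gaussianReal 0 (Real.toNNReal h) := by
    intro j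
    rw [hlaw _ _ (by positivity) (by nlinarith)]
    congr 2
    ring
  have hgae : ∀ j : ℕ, AEMeasurable (fun ω => B (((j : ℝ) + 1) * h) ω - B ((j : ℝ) * h) ω) P := by
    intro j
    apply AEMeasurable.of_map_ne_zero
    rw [hg j]
    exact IsProbabilityMeasure.ne_zero _
  have hfae : ∀ j, AEMeasurable (f j) P := fun j => (hgae j).div_const _
  have hflaw : ∀ j, P.map (f j) = gaussianReal 0 1 := by
    intro j
    have h1 : P.map (f j) = (P.map (fun ω => B (((j : ℝ) + 1) * h) ω - B ((j : ℝ) * h) ω)).map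
        (fun y => y / Real.sqrt h) := by
      rw [AEMeasurable.map_map_of_aemeasurable (by fun_prop) (hgae j)]
      rfl
    rw [h1, hg j, gaussianReal_map_div_const]
    congr 1
    · simp
    · apply NNReal.coe_injective
      push_cast
      rw [Real.coe_toNNReal _ hh.le]
      show h / (Real.sqrt h) ^ 2 = 1
      rw [Real.sq_sqrt hh.le]
      exact div_self hh.ne'
  have hfind : iIndepFun f P := by
    rw [iIndepFun_iff_finset]
    intro s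
    obtain ⟨n, hn⟩ : ∃ n, ∀ i ∈ s, i < n := ⟨s.sup id + 1, fun i hi => by
      have : i ≤ s.sup id := Finset.le_sup (f := id) hi
      omega⟩
    have h1 := hind n (fun j => (j : ℝ) * h) (by
      intro i j hij
      have : (i : ℝ) ≤ j := by exact_mod_cast hij
      exact mul_le_mul_of_nonneg_right this hh.le) (by simp)
    have h2 := h1.comp (fun _ => fun y => y / Real.sqrt h) (fun _ => by fun_prop)
    have h3 := h2.precomp (g := fun i : s => (⟨i, hn i i.2⟩ : Fin n)) (by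
      intro a b hab
      simp only [Fin.mk.injEq] at hab
      exact Subtype.ext hab)
    convert h3 using 1
    ext i ω
    simp [hf, Finset.restrict]
  refine ⟨fun j => (hfae j).mk (f j), fun j => (hfae j).measurable_mk,
    hfind.congr (fun j => (hfae j).ae_eq_mk), fun j => ?_, fun j => (hfae j).ae_eq_mk⟩
  rw [← Measure.map_congr (hfae j).ae_eq_mk]
  exact hflaw j

include hlaw hind in
theorem bad_prob {M m : ℕ} (hM : 4 ≤ M) (hm : (m : ℝ) ≤ cst * M / 8)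
    (hbig : (2 * M + 1) * (2 ^ 7 * (1 - pp / 2) ^ m) ≤ cst / 96) (d Q : ℕ) (hQ : 1 ≤ Q) :
    P {ω | ∀ q < Q, ¬ Pd M (fun t => B t ω) d ((q : ℝ) / Q) (1 / (Q : ℝ)) (B ((q : ℝ) / Q) ω)}
      ≤ ENNReal.ofReal ((1 - pp) ^ Q) := by
  have hQR : (0 : ℝ) < Q := by exact_mod_cast hQ
  have hMR : (4 : ℝ) ≤ M := by exact_mod_cast hM
  set h : ℝ := 1 / (Q : ℝ) / ((M : ℝ) ^ 2) ^ d with hh
  have hh0 : 0 < h := by positivity
  obtain ⟨ξ, hξ, hξi, hξl, hae⟩ := exists_iid hlaw hind hh0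
  have h1 := root_prob hM hm hbig d Q P ξ hξ hξi hξl
  refine le_trans (le_of_eq ?_) h1
  apply measure_congr
  have hall : ∀ᵐ ω ∂P, ∀ j : ℕ,
      (B (((j : ℝ) + 1) * h) ω - B ((j : ℝ) * h) ω) / Real.sqrt h = ξ j ω :=
    ae_all_iff.mpr (fun j => hae j)
  filter_upwards [hall] with ω hω
  apply propext
  show (∀ q < Q, ¬ Pd M (fun t => B t ω) d ((q : ℝ) / Q) (1 / (Q : ℝ)) (B ((q : ℝ) / Q) ω)) ↔
    (∀ q < Q, ¬ Gd M d 0 (fun j => ξ (q * (M ^ 2) ^ d + j) ω))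
  apply forall_congr'
  intro q
  apply imp_congr_right
  intro _
  rw [not_iff_not]
  unfold Pd
  rw [← hh, sub_self, zero_div]
  apply Gd_congr
  intro j _
  have hqh : (q : ℝ) / Q = ((q * (M ^ 2) ^ d : ℕ) : ℝ) * h := by
    rw [hh]
    push_cast
    field_simp
  have e1 : (q : ℝ) / Q + ((j : ℝ) + 1) * h = (((q * (M ^ 2) ^ d + j : ℕ) : ℝ) + 1) * h := by
    rw [hqh]; push_cast; ring
  have e2 : (q : ℝ) / Q + (j : ℝ) * h = ((q * (M ^ 2) ^ d + j : ℕ) : ℝ) * h := by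
    rw [hqh]; push_cast; ring
  rw [e1, e2]
  exact hω _

end Prob

theorem exists_goodTree : ∃ (M : ℕ) (lam : ℝ), 4 ≤ M ∧ 0 < lam ∧
    ∀ (Ω : Type) [MeasurableSpace Ω] (P : Measure Ω) [IsProbabilityMeasure P]
      (B : ℝ → Ω → ℝ),
      (∀ ω, B 0 ω = 0) →
      (∀ ω, Continuous (fun t => B t ω)) →
      (∀ s t : ℝ, 0 ≤ s → s ≤ t →
        P.map (fun ω => B t ω - B s ω) = gaussianReal 0 (Real.toNNReal (t - s))) →
      (∀ (n : ℕ) (τ : ℕ → ℝ), Monotone τ → 0 ≤ τ 0 →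
        iIndepFun (fun (i : Fin n) (ω : Ω) => B (τ (i.val + 1)) ω - B (τ i.val) ω) P) →
      ∀ᵐ ω ∂P, ∃ q Q : ℕ, q < Q ∧
        GoodTree (fun t => B t ω) ((q : ℝ) / Q) (1 / (Q : ℝ)) (lam * Real.sqrt (1 / (Q : ℝ))) M := by
  obtain ⟨M, m, hM, hm, hbig⟩ := exists_M
  have hMR : (4 : ℝ) ≤ M := by exact_mod_cast hM
  refine ⟨M, 1 / (2 * M), hM, by positivity, ?_⟩
  intro Ω _ P _ B _ _ hlaw hind
  -- bad sets
  set Bad : ℕ → ℕ → Set Ω := fun Q d => {ω | ∀ q < Q, ¬ Pd M (fun t => B t ω) d ((q : ℝ) / Q)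
    (1 / (Q : ℝ)) (B ((q : ℝ) / Q) ω)} with hBad
  have hmono : ∀ Q : ℕ, 1 ≤ Q → Monotone (Bad Q) := by
    intro Q hQ
    have hQR : (0 : ℝ) < Q := by exact_mod_cast hQ
    apply monotone_nat_of_le_succ
    intro d ω hω q hq hc
    exact hω q hq (Pd_anti (fun t => B t ω) (by omega) d (by positivity) hc)
  have hBQ : ∀ Q : ℕ, 1 ≤ Q → P (⋃ d, Bad Q d) ≤ ENNReal.ofReal ((1 - pp) ^ Q) := by
    intro Q hQ
    rw [(hmono Q hQ).measure_iUnion]
    apply iSup_le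
    intro d
    exact bad_prob hlaw hind hM hm hbig d Q hQ
  have hzero : P (⋂ Q : ℕ, ⋃ d, Bad (Q + 1) d) = 0 := by
    have hp := pp_pos
    have hp1 := pp_le_one
    have h1 : ∀ Q : ℕ, P (⋂ Q : ℕ, ⋃ d, Bad (Q + 1) d) ≤ ENNReal.ofReal ((1 - pp) ^ (Q + 1)) :=
      fun Q => (measure_mono (iInter_subset _ Q)).trans (hBQ (Q + 1) (by omega))
    have h2 : Filter.Tendsto (fun Q : ℕ => ENNReal.ofReal ((1 - pp) ^ (Q + 1))) Filter.atTop
        (nhds 0) := by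
      have h3 : Filter.Tendsto (fun Q : ℕ => (1 - pp) ^ (Q + 1)) Filter.atTop (nhds 0) :=
        (tendsto_pow_atTop_nhds_zero_of_lt_one (by linarith) (by linarith)).comp
          (Filter.tendsto_add_atTop_nat 1)
      have h4 := ENNReal.tendsto_ofReal h3
      simpa using h4
    exact le_antisymm (ge_of_tendsto' h2 h1) zero_le
  have hae : ∀ᵐ ω ∂P, ω ∉ ⋂ Q : ℕ, ⋃ d, Bad (Q + 1) d := by
    have h5 : (⋂ Q : ℕ, ⋃ d, Bad (Q + 1) d)ᶜ ∈ ae P := by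
      rw [mem_ae_iff, compl_compl]; exact hzero
    exact h5
  filter_upwards [hae] with ω hω
  simp only [mem_iInter, mem_iUnion, not_forall, not_exists] at hω
  obtain ⟨Q, hQ⟩ := hω
  have hQR : (0 : ℝ) < ((Q + 1 : ℕ) : ℝ) := by positivity
  have h1 : ∀ d, ∃ q ∈ Finset.range (Q + 1), Pd M (fun t => B t ω) d ((q : ℝ) / ((Q + 1 : ℕ) : ℝ))
      (1 / ((Q + 1 : ℕ) : ℝ)) (B ((q : ℝ) / ((Q + 1 : ℕ) : ℝ)) ω) := by
    intro d
    have h2 := hQ d
    by_contra hc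
    push Not at hc
    apply h2
    intro q hq
    exact hc q (Finset.mem_range.mpr hq)
  obtain ⟨q, hq, hall⟩ := exists_forall_of_anti _ _
    (fun d q => Pd_anti (fun t => B t ω) (by omega) d (by positivity)) h1
  exact ⟨q, Q + 1, Finset.mem_range.mp hq, goodTree_of_Pd (fun t => B t ω) (by omega)
    (by positivity) hall⟩

end Pool.Agent.BG.H85
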